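import Pool.Agent.V7H49.Nef.Stokes

/-! The class contains no smooth nonnegative form. -/

set_option autoImplicit false

open Complex MeasureTheory Topology Set Filter
open scoped Manifold ContDiff ComplexConjugate MatrixGroups

namespace Pool.Agent.V7H49.Nef

/-- The embedding `w ↦ (e₁ w, e₂ w)`. -/
noncomputable def emb (e : ℝ × ℝ) : ℂ →L[ℝ] ℂ × ℂ :=
  (e.1 • ContinuousLinearMap.id ℝ ℂ).prod (e.2 • ContinuousLinearMap.id ℝ ℂ)

lemma emb_apply (e : ℝ × ℝ) (w : ℂ) : emb e w = (e.1 • w, e.2 • w) := rfl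

/-- The one-form. -/
noncomputable def lamU (U : ℂ × ℂ → ℝ) (e : ℝ × ℝ) (z : ℂ) : ℂ →L[ℝ] ℝ :=
  (fderiv ℝ U (emb (1, 1) z)).comp (emb e)

lemma emb_mem {z : ℂ} (hz : 0 < z.im) : emb (1, 1) z ∈ DD := by
  rw [emb_apply]
  exact ⟨by simpa using hz, by simpa using hz⟩

lemma emb_diag (z : ℂ) : emb (1, 1) z = (z, z) := by
  rw [emb_apply]
  simp

lemma lamU_smooth {U : ℂ × ℂ → ℝ} (hU : ∀ p ∈ DD, ContDiffAt ℝ ∞ U p) (e : ℝ × ℝ) {z : ℂ}
    (hz : 0 < z.im) : ContDiffAt ℝ 1 (lamU U e) z := by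
  have h1 : ContDiffAt ℝ 1 (fderiv ℝ U) (emb (1, 1) z) :=
    ((hU _ (emb_mem hz)).of_le two_le_infty).fderiv_right (m := 1) (by norm_num)
  have h2 : ContDiffAt ℝ 1 (fun z => fderiv ℝ U (emb (1, 1) z)) z :=
    h1.comp z (emb (1, 1)).contDiff.contDiffAt
  exact h2.clm_comp contDiffAt_const

lemma fderiv_lamU {U : ℂ × ℂ → ℝ} (hU : ∀ p ∈ DD, ContDiffAt ℝ ∞ U p) (e : ℝ × ℝ) {z : ℂ}
    (hz : 0 < z.im) (v w : ℂ) : fderiv ℝ (lamU U e) z v w =
      fderiv ℝ (fderiv ℝ U) (emb (1, 1) z) (emb (1, 1) v) (emb e w) := by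
  have h1 : HasFDerivAt (fderiv ℝ U) (fderiv ℝ (fderiv ℝ U) (emb (1, 1) z)) (emb (1, 1) z) :=
    (diff_fderiv ((hU _ (emb_mem hz)).of_le two_le_infty)).hasFDerivAt
  have h2 : HasFDerivAt (fun z => fderiv ℝ U (emb (1, 1) z))
      ((fderiv ℝ (fderiv ℝ U) (emb (1, 1) z)).comp (emb (1, 1))) z :=
    h1.comp z (emb (1, 1)).hasFDerivAt
  have h3 := (h2.clm_comp (hasFDerivAt_const (emb e) z)).fderiv
  have h4 : fderiv ℝ (lamU U e) z =
      fderiv ℝ (fun z => (fderiv ℝ U (emb (1, 1) z)).comp (emb e)) z := rfl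
  rw [h4, h3]
  simp

lemma lamU_inv {U : ℂ × ℂ → ℝ} (hU : ∀ p ∈ DD, ContDiffAt ℝ ∞ U p)
    (hUi : ∀ (g : GG × GG) (p : ℂ × ℂ), p ∈ DD → U (Mo g p) = U p) (e : ℝ × ℝ) (g : GG) {z : ℂ}
    (hz : 0 < z.im) (h : ℂ) : lamU U e (mo g z) (h * (1 / dn g z ^ 2)) = lamU U e z h := by
  have hp : (z, z) ∈ DD := ⟨hz, hz⟩
  have h1 : HasFDerivAt (Mo (g, g)) ((fderiv ℂ (Mo (g, g)) (z, z)).restrictScalars ℝ) (z, z) :=
    ((contDiffAt_Mo (g, g) hp).differentiableAt (by simp)).hasFDerivAt.restrictScalars ℝ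
  have h2 : HasFDerivAt U (fderiv ℝ U (Mo (g, g) (z, z))) (Mo (g, g) (z, z)) :=
    ((hU _ (Mo_mem _ _)).differentiableAt (by simp)).hasFDerivAt
  have h3 := (h2.comp (z, z) h1).fderiv
  have h4 : fderiv ℝ (U ∘ Mo (g, g)) (z, z) = fderiv ℝ U (z, z) := by
    apply Filter.EventuallyEq.fderiv_eq
    filter_upwards [isOpen_DD.mem_nhds hp] with q hq
    exact hUi (g, g) q hq
  rw [h4] at h3
  unfold lamU
  rw [ContinuousLinearMap.comp_apply, ContinuousLinearMap.comp_apply, emb_diag, emb_diag, h3,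
    ContinuousLinearMap.comp_apply, ContinuousLinearMap.coe_restrictScalars', fderiv_Mo _ hp]
  have h5 : Mo (g, g) (z, z) = (mo g z, mo g z) := rfl
  rw [h5]
  congr 1
  unfold dMo
  rw [emb_apply, emb_apply]
  ext1
  · simp only [real_smul]
    ring
  · simp only [real_smul]
    ring

lemma dMo_one {p : ℂ × ℂ} (v : ℂ × ℂ) : dMo 1 p v = v := by
  unfold dMo dn
  ext1
  · simp
  · simp

/-- The form along the diagonal. -/
lemma alT_diag {z : ℂ} (hz : 0 < z.im) (v : ℂ × ℂ) :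
    alT (z, z) v = (normSq v.2 - normSq v.1) / (8 * z.im ^ 2) := by
  have hp : (z, z) ∈ DD := ⟨hz, hz⟩
  obtain ⟨γ, hγ⟩ := local_one hp
  have h0 : sf (z, z) = 0 := by
    unfold sf
    simp
  have h1 : γ = 1 := by
    by_contra hcon
    have h2 := hγ.self_of_nhds.2 1 (Ne.symm hcon)
    have h3 : Mo (1, 1) (z, z) = (z, z) := Mo_one hp
    rw [h3, h0] at h2
    norm_num at h2
  subst h1
  have h4 : Mo (1, 1) (z, z) = (z, z) := Mo_one hp
  have h5 : dMo (1, 1) (z, z) v = v := dMo_one v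
  rw [alT_local hγ.self_of_nhds.2, h4, h5]
  unfold Lam bb nN
  rw [h0, AA_one (by norm_num), deriv_AA_zero (by norm_num)]
  have h6 : z.im ≠ 0 := hz.ne'
  field_simp
  ring

/-- Nonnegativity upstairs. -/
lemma nonneg_up {u : XX → ℝ} (hu : ContMDiff 𝓘(ℝ, ℂ × ℂ) 𝓘(ℝ, ℝ) ∞ u)
    (h : ∀ x v, 0 ≤ alX x v + ddc u x v) {p : ℂ × ℂ} (hp : p ∈ DD) (v : ℂ × ℂ) :
    0 ≤ alT p v + levi (fun p => u (Pz p)) p v := by
  obtain ⟨g, hg⟩ := rep_Pz hp
  have h1 := h (Pz p) (dMo g p v)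
  rw [ddc_eq] at h1
  have h2 : alX (Pz p) (dMo g p v) = alT (rep (Pz p)) (dMo g p v) := rfl
  rw [h2, hg, alT_inv g p hp v] at h1
  rw [← levi_Mo (f := fun p => u (Pz p)) g hp
    ((lift_smooth hu (Mo_mem g p)).of_le two_le_infty)] at h1
  refine le_of_le_of_eq h1 ?_
  congr 1
  apply levi_congr
  filter_upwards [isOpen_DD.mem_nhds hp] with q hq
  rw [Pz_Mo g hq]

/-- Expansion of the Hessian. -/
lemma levi_expand {U : ℂ × ℂ → ℝ} {p : ℂ × ℂ} (hU : ContDiffAt ℝ ∞ U p) (d e : ℂ × ℂ) (t : ℝ) :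
    levi U p (d + t • e) = (fderiv ℝ (fderiv ℝ U) p d d + fderiv ℝ (fderiv ℝ U) p (I • d) (I • d)) / 4
      + t / 2 * (fderiv ℝ (fderiv ℝ U) p d e + fderiv ℝ (fderiv ℝ U) p (I • d) (I • e)) +
      t ^ 2 * levi U p e := by
  have hsym := (hU.isSymmSndFDerivAt (by simpa using two_le_infty)).eq
  unfold levi
  have e1 : I • (d + t • e) = I • d + t • (I • e) := by
    rw [smul_add, smul_comm]
  rw [e1]
  simp only [map_add, map_smul, _root_.add_apply, _root_.smul_apply, smul_eq_mul]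
  rw [hsym e d, hsym (I • e) (I • d)]
  ring

lemma int4 {a b c d : ℂ → ℝ} (ha : Integrable a) (hb : Integrable b) (hc : Integrable c)
    (hd : Integrable d) (k1 k2 k3 k4 : ℝ) :
    ∫ z, (k1 * a z + k2 * b z + k3 * c z + k4 * d z) =
      k1 * (∫ z, a z) + k2 * (∫ z, b z) + k3 * (∫ z, c z) + k4 * ∫ z, d z := by
  have j1 := ha.const_mul k1
  have j2 := hb.const_mul k2
  have j3 := hc.const_mul k3
  have j4 := hd.const_mul k4
  have j12 : Integrable (fun z => k1 * a z + k2 * b z) := j1.add j2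
  have j123 : Integrable (fun z => k1 * a z + k2 * b z + k3 * c z) := j12.add j3
  rw [integral_add j123 j4, integral_add j12 j3, integral_add j1 j2,
    integral_const_mul, integral_const_mul, integral_const_mul, integral_const_mul]

theorem notNonneg : ¬ HasNonnegRep alX := by
  rintro ⟨u, hu, h⟩
  obtain ⟨χ, hχ, hc, hs, h0, ⟨z0, hz0⟩, h1⟩ := exists_chi
  set U : ℂ × ℂ → ℝ := fun p => u (Pz p) with hUdef
  have hU : ∀ p ∈ DD, ContDiffAt ℝ ∞ U p := fun p hp => lift_smooth hu hp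
  have hUi : ∀ (g : GG × GG) (p : ℂ × ℂ), p ∈ DD → U (Mo g p) = U p := by
    intro g p hp
    show u (Pz (Mo g p)) = u (Pz p)
    rw [Pz_Mo g hp]
  have hst : ∀ e : ℝ × ℝ, ∫ z, χ z * (fderiv ℝ (lamU U e) z 1 1 + fderiv ℝ (lamU U e) z I I) = 0 :=
    fun e => stokes hχ hc hs h1 (fun z hz => lamU_smooth hU e hz)
      (fun g z hz w => lamU_inv hU hUi e g hz w)
  have hdiag : ∀ z : ℂ, 0 < z.im → ContinuousAt (fun z => fderiv ℝ (fderiv ℝ U) (emb (1, 1) z)) z := by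
    intro z hz
    have h2 : ContDiffAt ℝ 1 (fderiv ℝ U) (emb (1, 1) z) :=
      ((hU _ (emb_mem hz)).of_le two_le_infty).fderiv_right (m := 1) (by norm_num)
    have h3 := (h2.fderiv_right (m := 0) (by norm_num)).continuousAt
    exact ContinuousAt.comp (g := fderiv ℝ (fderiv ℝ U)) h3 (emb (1, 1)).continuous.continuousAt
  -- the four integrable functions
  have ia : Continuous (fun z => (1 / z.im ^ 2) * χ z) ∧
      Integrable (fun z : ℂ => (1 / z.im ^ 2) * χ z) := by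
    refine int_contC (F := fun z : ℂ => 1 / z.im ^ 2) (fun z hz => ?_) hχ.continuous hc
    exact continuousAt_const.div (Complex.continuous_im.continuousAt.pow 2)
      (pow_ne_zero 2 (hs hz).ne')
  have ib : ∀ e : ℝ × ℝ, Integrable (fun z => (fderiv ℝ (lamU U e) z 1 1 +
      fderiv ℝ (lamU U e) z I I) * χ z) := by
    intro e
    refine (int_contC (F := fun z => fderiv ℝ (lamU U e) z 1 1 + fderiv ℝ (lamU U e) z I I)
      (fun z hz => ?_) hχ.continuous hc).2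
    have h4 := ((lamU_smooth hU e (hs hz)).fderiv_right (m := 0) (by norm_num)).continuousAt
    exact ((h4.clm_apply continuousAt_const).clm_apply continuousAt_const).add
      ((h4.clm_apply continuousAt_const).clm_apply continuousAt_const)
  have id : Integrable (fun z => levi U (emb (1, 1) z) (1, 0) * χ z) := by
    refine (int_contC (F := fun z => levi U (emb (1, 1) z) (1, 0)) (fun z hz => ?_)
      hχ.continuous hc).2
    unfold levi
    have h4 := hdiag z (hs hz)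
    exact (((h4.clm_apply continuousAt_const).clm_apply continuousAt_const).add
      ((h4.clm_apply continuousAt_const).clm_apply continuousAt_const)).div_const 4
  have hA : 0 < ∫ z : ℂ, (1 / z.im ^ 2) * χ z := by
    refine ia.1.integral_pos_of_hasCompactSupport_nonneg_nonzero (x := z0) hc.mul_left
      (fun z => ?_) ?_
    · have := h0 z
      positivity
    · have hz : z0 ∈ tsupport χ := subset_tsupport χ hz0
      exact mul_ne_zero (div_ne_zero one_ne_zero (pow_ne_zero 2 (hs hz).ne')) hz0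
  have key : ∀ t : ℝ, 0 ≤ (-2 * t - t ^ 2) / 8 * (∫ z : ℂ, (1 / z.im ^ 2) * χ z) +
      t ^ 2 * ∫ z, levi U (emb (1, 1) z) (1, 0) * χ z := by
    intro t
    have hv : ((1, 1) : ℂ × ℂ) + t • ((1, 0) : ℂ × ℂ) = (((1 + t : ℝ) : ℂ), (1 : ℂ)) := by
      ext1
      · simp
      · simp
    have e1 : ∀ z : ℂ, χ z * (alT (z, z) (((1 + t : ℝ) : ℂ), (1 : ℂ)) +
        levi U (z, z) (((1 + t : ℝ) : ℂ), (1 : ℂ))) =
        (-2 * t - t ^ 2) / 8 * ((1 / z.im ^ 2) * χ z) +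
        1 / 4 * ((fderiv ℝ (lamU U (1, 1)) z 1 1 + fderiv ℝ (lamU U (1, 1)) z I I) * χ z) +
        t / 2 * ((fderiv ℝ (lamU U (1, 0)) z 1 1 + fderiv ℝ (lamU U (1, 0)) z I I) * χ z) +
        t ^ 2 * (levi U (emb (1, 1) z) (1, 0) * χ z) := by
      intro z
      by_cases hz : z ∈ tsupport χ
      · have hzi : 0 < z.im := hs hz
        have hp : (z, z) ∈ DD := ⟨hzi, hzi⟩
        rw [← hv, levi_expand (hU _ hp), hv, alT_diag hzi, fderiv_lamU hU _ hzi,
          fderiv_lamU hU _ hzi, fderiv_lamU hU _ hzi, fderiv_lamU hU _ hzi, emb_diag z]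
        have e2 : emb (1, 1) 1 = (1, 1) := by rw [emb_apply]; simp
        have e3 : emb (1, 1) I = I • ((1, 1) : ℂ × ℂ) := by rw [emb_apply]; simp
        have e4 : emb (1, 0) 1 = (1, 0) := by rw [emb_apply]; simp
        have e5 : emb (1, 0) I = I • ((1, 0) : ℂ × ℂ) := by rw [emb_apply]; simp
        rw [e2, e3, e4, e5]
        simp only [normSq_ofReal, map_one]
        have hz' : z.im ≠ 0 := hzi.ne'
        field_simp
        ring
      · rw [image_eq_zero_of_notMem_tsupport hz]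
        simp
    have e6 : 0 ≤ ∫ z : ℂ, χ z * (alT (z, z) (((1 + t : ℝ) : ℂ), (1 : ℂ)) +
        levi U (z, z) (((1 + t : ℝ) : ℂ), (1 : ℂ))) := by
      refine integral_nonneg fun z => ?_
      by_cases hz : z ∈ tsupport χ
      · exact mul_nonneg (h0 z) (nonneg_up hu h ⟨hs hz, hs hz⟩ _)
      · show 0 ≤ χ z * _
        rw [image_eq_zero_of_notMem_tsupport hz, zero_mul]
    simp_rw [e1] at e6
    rw [int4 ia.2 (ib (1, 1)) (ib (1, 0)) id] at e6
    have s1 := hst (1, 1)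
    have s2 := hst (1, 0)
    simp_rw [mul_comm (χ _)] at s1 s2
    rw [s1, s2] at e6
    linarith
  set A := ∫ z : ℂ, (1 / z.im ^ 2) * χ z with hAdef
  set D := ∫ z, levi U (emb (1, 1) z) (1, 0) * χ z with hDdef
  have hD1 : 0 < |D| + 1 := by positivity
  have h2 := key (A / (8 * (|D| + 1)))
  set t := A / (8 * (|D| + 1)) with ht
  have ht0 : 0 < t := by positivity
  have h3 : t * (|D| + 1) = A / 8 := by
    rw [ht]
    field_simp
  have h4 : D ≤ |D| := le_abs_self D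
  have h5 : t * D ≤ A / 8 := by nlinarith
  nlinarith [mul_pos ht0 hA, mul_pos ht0 (mul_pos ht0 hA)]

end Pool.Agent.V7H49.Nef
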