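import Pool.Agent.V7H49.Nef.Green

/-! The class is big. -/

set_option autoImplicit false

open Complex MeasureTheory Topology Set Filter
open scoped Manifold ContDiff ComplexConjugate MatrixGroups

namespace Pool.Agent.V7H49.Nef

lemma kap_cont (v : ℂ × ℂ) {p : ℂ × ℂ} (hp : p ∈ DD) : ContinuousAt (fun q => kap q v) p := by
  unfold kap nN
  have c1 : ContinuousAt (fun p : ℂ × ℂ => p.1.im) p :=
    (Complex.continuous_im.comp continuous_fst).continuousAt
  have c2 : ContinuousAt (fun p : ℂ × ℂ => p.2.im) p :=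
    (Complex.continuous_im.comp continuous_snd).continuousAt
  have h1 := hp.1.ne'
  have h2 := hp.2.ne'
  exact (((continuousAt_const.div (c1.pow 2) (pow_ne_zero 2 h1))).add
    (continuousAt_const.div (c2.pow 2) (pow_ne_zero 2 h2))).div_const 4

lemma levi_zero_of {χ : ℂ × ℂ → ℝ} {z : ℂ × ℂ} (hz : z ∉ tsupport χ) (v : ℂ × ℂ) :
    levi χ z v = 0 := by
  have h := image_eq_zero_of_notMem_tsupport (f := fun z => levi χ z v)
    (fun h => hz (levi_support v h))
  exact h

lemma mul_levi_int {F χ : ℂ × ℂ → ℝ} (hχ : ContDiff ℝ ∞ χ) (hc : HasCompactSupport χ)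
    (hF : IntegrableOn F (tsupport χ)) (v : ℂ × ℂ) : Integrable (fun z => F z * levi χ z v) := by
  have h1 : IntegrableOn (fun z => F z * levi χ z v) (tsupport χ) :=
    hF.mul_continuousOn (levi_cont hχ v).continuousOn hc
  refine (integrableOn_iff_integrable_of_support_subset ?_).mp h1
  intro z hz
  by_contra hcon
  apply hz
  show F z * levi χ z v = 0
  rw [levi_zero_of hcon, mul_zero]

lemma big_pos {W : Set (ℂ × ℂ)} (hWD : W ⊆ DD) {γ : GG} (hWo : IsOpen W)
    (hγ : ∀ p ∈ W, ∀ g : GG, g ≠ γ → 2 < sf (Mo (1, g) p)) {G H : ℂ × ℂ → ℝ}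
    (hG : ∀ p ∈ W, ContDiffAt ℝ ∞ G p ∧ ∀ v, levi G p v = alT p v)
    (hH : ∀ p ∈ W, ContDiffAt ℝ ∞ H p ∧ ∀ v, levi H p v = kap p v)
    {χ : ℂ × ℂ → ℝ} (hχ : ContDiff ℝ ∞ χ) (hc : HasCompactSupport χ) (hs : tsupport χ ⊆ W)
    (h0 : ∀ z, 0 ≤ χ z) (v : ℂ × ℂ) :
    0 ≤ ∫ z, (VV 0 z + G z - 1 / 2 * H z) * levi χ z v := by
  set ε : ℕ → ℝ := fun n => 1 / ((n : ℝ) + 1) with hε
  have hεpos : ∀ n, 0 < ε n := fun n => by rw [hε]; positivity
  have hγn : ∀ p ∈ W, ∀ᶠ q in 𝓝 p, q ∈ DD ∧ ∀ g : GG, g ≠ γ → 2 < sf (Mo (1, g) q) := by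
    intro p hp
    filter_upwards [hWo.mem_nhds hp] with q hq
    exact ⟨hWD hq, hγ q hq⟩
  set φ : ℕ → ℂ × ℂ → ℝ := fun n z => VV (ε n) z + G z - 1 / 2 * H z with hφ
  have hφs : ∀ n, ∀ p ∈ W, ContDiffAt ℝ ∞ (φ n) p := fun n p hp =>
    ((contDiffAt_VV (hεpos n) (hWD hp)).add (hG p hp).1).sub (contDiffAt_const.mul (hH p hp).1)
  have hφl : ∀ n, ∀ p ∈ W, -(ε n / (sf (Mo (1, γ) p) + ε n)) * kap p v ≤ levi (φ n) p v := by
    intro n p hp
    have c1 := (contDiffAt_VV (hεpos n) (hWD hp)).of_le two_le_infty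
    have c2 := (hG p hp).1.of_le two_le_infty
    have c3 := (hH p hp).1.of_le two_le_infty
    rw [hφ]
    simp only
    rw [levi_sub (c1.add c2) (contDiffAt_const.mul c3), levi_add c1 c2, levi_const_mul c3,
      (hG p hp).2, (hH p hp).2]
    have h := (lower (hεpos n) (hγn p hp) v).2
    unfold kap
    linarith
  have hK : IsCompact (tsupport χ) := hc
  have hKD : tsupport χ ⊆ DD := hs.trans hWD
  -- lower bounds for the integrals
  have i1 : ∀ n, Integrable (fun z => -(ε n / (sf (Mo (1, γ) z) + ε n)) * kap z v * χ z) := by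
    intro n
    refine int_cont (F := fun z => -(ε n / (sf (Mo (1, γ) z) + ε n)) * kap z v)
      (fun z hz => ?_) hχ.continuous hc
    refine ContinuousAt.mul (ContinuousAt.neg (continuousAt_const.div ?_ ?_)) (kap_cont v (hKD hz))
    · exact (contDiffAt_sfMo γ (hKD hz)).continuousAt.add continuousAt_const
    · have := sf_nonneg (Mo_mem (1, γ) z)
      have := hεpos n
      positivity
  have hge : ∀ n, ∫ z, -(ε n / (sf (Mo (1, γ) z) + ε n)) * kap z v * χ z ≤
      ∫ z, φ n z * levi χ z v := by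
    intro n
    rw [ibp hχ hc (fun x hx => (hφs n x (hs hx)).of_le two_le_infty)]
    refine integral_mono (i1 n) ?_ fun z => ?_
    · refine int_cont (F := fun z => levi (φ n) z v) (fun x hx => ?_) hχ.continuous hc
      have h3 : ContDiffAt ℝ 1 (fderiv ℝ (φ n)) x :=
        ((hφs n x (hs hx)).of_le two_le_infty).fderiv_right (m := 1) (by norm_num)
      have h4 := (h3.fderiv_right (m := 0) (by norm_num)).continuousAt
      unfold levi
      exact (((h4.clm_apply continuousAt_const).clm_apply continuousAt_const).add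
        ((h4.clm_apply continuousAt_const).clm_apply continuousAt_const)).div_const 4
    · by_cases hz : z ∈ tsupport χ
      · exact mul_le_mul_of_nonneg_right (hφl n z (hs hz)) (h0 z)
      · simp only [image_eq_zero_of_notMem_tsupport hz, mul_zero]
        exact le_rfl
  have hae : ∀ᵐ z, z ∈ tsupport χ → 0 < sf (Mo (1, γ) z) :=
    (ae_restrict_iff' hK.measurableSet).mp (ae_sf_pos γ hK.measurableSet hKD)
  have hεt : Tendsto ε atTop (𝓝 0) := tendsto_one_div_add_atTop_nhds_zero_nat
  have l1 : Tendsto (fun n => ∫ z, -(ε n / (sf (Mo (1, γ) z) + ε n)) * kap z v * χ z) atTop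
      (𝓝 (∫ _z : ℂ × ℂ, (0 : ℝ))) := by
    refine tendsto_integral_of_dominated_convergence (fun z => kap z v * χ z) ?_ ?_ ?_ ?_
    · exact fun n => (i1 n).aestronglyMeasurable
    · exact int_cont (fun z hz => kap_cont v (hKD hz)) hχ.continuous hc
    · intro n
      refine ae_of_all _ fun z => ?_
      by_cases hz : z ∈ tsupport χ
      · have h1 : 0 ≤ kap z v := div_nonneg (nN_nonneg z v) (by norm_num)
        have h2 := sf_nonneg (Mo_mem (1, γ) z)
        have h3 := hεpos n
        have h4 : ε n / (sf (Mo (1, γ) z) + ε n) ≤ 1 := by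
          rw [div_le_one (by linarith)]
          linarith
        have h5 : 0 ≤ ε n / (sf (Mo (1, γ) z) + ε n) := by positivity
        have h6 := h0 z
        rw [Real.norm_eq_abs, abs_mul, abs_mul, abs_neg, abs_of_nonneg h5, abs_of_nonneg h1,
          abs_of_nonneg h6]
        have h7 : 0 ≤ kap z v * χ z := mul_nonneg h1 h6
        calc ε n / (sf (Mo (1, γ) z) + ε n) * kap z v * χ z =
              ε n / (sf (Mo (1, γ) z) + ε n) * (kap z v * χ z) := by ring
          _ ≤ 1 * (kap z v * χ z) := mul_le_mul_of_nonneg_right h4 h7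
          _ = kap z v * χ z := one_mul _
      · simp [image_eq_zero_of_notMem_tsupport hz]
    · filter_upwards [hae] with z hz
      by_cases hzK : z ∈ tsupport χ
      · have h1 := hz hzK
        have h2 : Tendsto (fun n => -(ε n / (sf (Mo (1, γ) z) + ε n)) * kap z v * χ z) atTop
            (𝓝 (-(0 / (sf (Mo (1, γ) z) + 0)) * kap z v * χ z)) := by
          refine ((Tendsto.neg (hεt.div (tendsto_const_nhds.add hεt) ?_)).mul_const _).mul_const _
          rw [add_zero]
          exact h1.ne'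
        simpa using h2
      · simp [image_eq_zero_of_notMem_tsupport hzK]
  rw [integral_zero] at l1
  have hV0 : IntegrableOn (VV 0) (tsupport χ) := by
    refine (green_int γ hK hKD).congr_fun (fun z hz => ?_) hK.measurableSet
    exact (VV_local 0 (hγ z (hs hz))).symm
  have hGi : IntegrableOn G (tsupport χ) := by
    refine ContinuousOn.integrableOn_compact hK fun z hz => ?_
    exact (hG z (hs hz)).1.continuousAt.continuousWithinAt
  have hHi : IntegrableOn H (tsupport χ) := by
    refine ContinuousOn.integrableOn_compact hK fun z hz => ?_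
    exact (hH z (hs hz)).1.continuousAt.continuousWithinAt
  have l2 : Tendsto (fun n => ∫ z, φ n z * levi χ z v) atTop
      (𝓝 (∫ z, (VV 0 z + G z - 1 / 2 * H z) * levi χ z v)) := by
    refine tendsto_integral_of_dominated_convergence
      (fun z => |(|VV 0 z| + |G z| + 1 / 2 * |H z|) * levi χ z v|) ?_ ?_ ?_ ?_
    · intro n
      refine (int_cont (F := φ n) (g := fun z => levi χ z v) (fun z hz => ?_) (levi_cont hχ v)
        (hc.of_isClosed_subset (isClosed_tsupport _) (levi_support v))).aestronglyMeasurable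
      exact (hφs n z (hs (levi_support v hz))).continuousAt
    · exact (mul_levi_int hχ hc ((hV0.abs.add hGi.abs).add (hHi.abs.const_mul _)) v).abs
    · intro n
      filter_upwards [hae] with z hz
      by_cases hzK : z ∈ tsupport χ
      · have h1 := hz hzK
        rw [Real.norm_eq_abs, abs_mul, abs_mul]
        refine mul_le_mul_of_nonneg_right ?_ (abs_nonneg _)
        have h2 : |VV (ε n) z| ≤ |VV 0 z| := by
          rw [VV_local _ (hγ z (hs hzK)), VV_local _ (hγ z (hs hzK)),
            abs_of_nonpos (FF_nonpos (hεpos n).le h1), abs_of_nonpos (FF_nonpos le_rfl h1)]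
          have := FF_mono (hεpos n).le h1
          linarith
        have h3 : |φ n z| ≤ |VV (ε n) z| + |G z| + 1 / 2 * |H z| := by
          rw [hφ]
          simp only
          have h4 := abs_sub (VV (ε n) z + G z) (1 / 2 * H z)
          have h5 := abs_add_le (VV (ε n) z) (G z)
          rw [abs_mul (1 / 2 : ℝ) (H z), abs_of_pos (by norm_num : (0 : ℝ) < 1 / 2)] at h4
          linarith
        refine le_trans h3 (le_trans ?_ (le_abs_self _))
        linarith
      · rw [levi_zero_of hzK]
        simp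
    · filter_upwards [hae] with z hz
      by_cases hzK : z ∈ tsupport χ
      · have h1 := hz hzK
        rw [hφ]
        simp only
        refine Tendsto.mul_const _ (Tendsto.sub_const (Tendsto.add_const _ ?_) _)
        rw [VV_local _ (hγ z (hs hzK))]
        simp_rw [VV_local _ (hγ z (hs hzK))]
        exact FF_tendsto h1
      · rw [levi_zero_of hzK]
        simp
  exact le_of_tendsto_of_tendsto' l1 l2 hge

lemma isBig : IsBig kaX alX := by
  refine ⟨1 / 2, by norm_num, fun x => VV 0 (rep x), fun x => ?_⟩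
  obtain ⟨γ, hγ⟩ := local_one (rep_mem x)
  obtain ⟨G, hG⟩ := locPot_alT (rep_mem x)
  have hH := locPot_kap (rep_mem x)
  set H : ℂ × ℂ → ℝ := fun q => (-1) * Real.log q.1.im + (-1) * Real.log q.2.im with hHdef
  obtain ⟨W, hW, hWo, hxW⟩ := eventually_nhds_iff.mp
    (((hγ.and hG).and hH).and ((ch2 x).open_target.mem_nhds (rep_mem_target x)))
  have hWt : W ⊆ (ch2 x).target := fun p hp => (hW p hp).2
  have hWD : W ⊆ DD := fun p hp => (hW p hp).1.1.1.1
  have hγ' : ∀ p ∈ W, ∀ g : GG, g ≠ γ → 2 < sf (Mo (1, g) p) := fun p hp => (hW p hp).1.1.1.2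
  have hG' : ∀ p ∈ W, ContDiffAt ℝ ∞ G p ∧ ∀ v, levi G p v = alT p v :=
    fun p hp => (hW p hp).1.1.2
  have hH' : ∀ p ∈ W, ContDiffAt ℝ ∞ H p ∧ ∀ v, levi H p v = kap p v := fun p hp => (hW p hp).1.2
  have himg : ch2 x '' ((ch2 x).source ∩ ch2 x ⁻¹' W) = W := by
    ext z
    constructor
    · rintro ⟨y, hy, rfl⟩
      exact hy.2
    · intro hz
      refine ⟨(ch2 x).symm z, ⟨(ch2 x).map_target (hWt hz), ?_⟩, (ch2 x).right_inv (hWt hz)⟩
      rw [mem_preimage, (ch2 x).right_inv (hWt hz)]
      exact hz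
  have hval : ∀ z ∈ W, VV 0 (rep ((ch2 x).symm z)) + G (ch2 x ((ch2 x).symm z)) -
      1 / 2 * H (ch2 x ((ch2 x).symm z)) = VV 0 z + G z - 1 / 2 * H z := by
    intro z hz
    rw [(ch2 x).right_inv (hWt hz), ch2_symm (hWt hz), VV_rep 0 (hWD hz)]
  refine ⟨(ch2 x).source ∩ ch2 x ⁻¹' W, (ch2 x).isOpen_inter_preimage hWo,
    ⟨mem_ch2_source x, ?_⟩, inter_subset_left, fun y => G (ch2 x y), fun y => H (ch2 x y),
    isPotential_of alT_inv (fun q hq => (hG' q hq).1) fun q hq => (hG' q hq).2,
    isPotential_of kap_inv (fun q hq => (hH' q hq).1) fun q hq => (hH' q hq).2, ?_, ?_⟩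
  · rw [mem_preimage, ch2_self]
    exact hxW
  · rw [chartAt_eq, himg, locallyIntegrableOn_iff hWo.isLocallyClosed]
    intro K hKW hK
    have h1 : IntegrableOn (fun z => VV 0 z + G z - 1 / 2 * H z) K := by
      refine Integrable.sub (Integrable.add ?_ ?_) (Integrable.const_mul ?_ _)
      · refine (green_int γ hK (hKW.trans hWD)).congr_fun (fun z hz => ?_) hK.measurableSet
        exact (VV_local 0 (hγ' z (hKW hz))).symm
      · refine ContinuousOn.integrableOn_compact hK fun z hz => ?_
        exact (hG' z (hKW hz)).1.continuousAt.continuousWithinAt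
      · refine ContinuousOn.integrableOn_compact hK fun z hz => ?_
        exact (hH' z (hKW hz)).1.continuousAt.continuousWithinAt
    exact h1.congr_fun (fun z hz => (hval z (hKW hz)).symm) hK.measurableSet
  · intro χ hχ hc hs h0 v
    rw [chartAt_eq] at hs ⊢
    rw [himg] at hs
    have h1 := big_pos hWD hWo hγ' hG' hH' hχ hc hs h0 v
    refine le_of_le_of_eq h1 (integral_congr_ae (ae_of_all _ fun z => ?_))
    simp only
    by_cases hz : z ∈ tsupport χ
    · rw [hval z (hs hz)]
    · rw [levi_zero_of hz, mul_zero, mul_zero]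

end Pool.Agent.V7H49.Nef
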