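import Mathlib

/-! Real (1,1)-forms and classes on complex surfaces. -/

set_option autoImplicit false

open Complex MeasureTheory Topology Set
open scoped Manifold ContDiff

namespace Pool.Agent.V7H49.Nef

/-- The complex Hessian `∑ (∂²f / ∂z_j ∂z̄_k)(p) v_j v̄_k` of the function `f : ℂ² → ℝ` at `p`, applied to
`v`; it is a quarter of the Laplacian at `ζ = 0` of `ζ ↦ f (p + ζ v)`. -/
noncomputable def levi (f : ℂ × ℂ → ℝ) (p v : ℂ × ℂ) : ℝ :=
  (fderiv ℝ (fderiv ℝ f) p v v + fderiv ℝ (fderiv ℝ f) p (I • v) (I • v)) / 4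

section

variable {X : Type} [TopologicalSpace X] [ChartedSpace (ℂ × ℂ) X]

/-- Real forms `θ = i ∑ θ_jk dz_j ∧ dz̄_k` of type `(1,1)` on a complex surface `X`, given by the
real-valued function `v ↦ ∑ θ_jk v_j v̄_k` of the tangent vectors `v` (Mathlib identifies the tangent
space at `x` with `ℂ²` through the preferred chart at `x`). The form is nonnegative if and only if
this function is. -/
abbrev Form (X : Type) [TopologicalSpace X] [ChartedSpace (ℂ × ℂ) X] : Type :=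
  ∀ x : X, TangentSpace 𝓘(ℂ, ℂ × ℂ) x → ℝ

/-- The form `i ∂∂̄ u`. -/
noncomputable def ddc (u : X → ℝ) : Form X := fun x v =>
  levi (u ∘ (chartAt (ℂ × ℂ) x).symm) (chartAt (ℂ × ℂ) x x) v

/-- `g` is smooth on `U` and `θ = i ∂∂̄ g` on `U`. -/
structure IsPotential (θ : Form X) (g : X → ℝ) (U : Set X) : Prop where
  smooth : ContMDiffOn 𝓘(ℝ, ℂ × ℂ) 𝓘(ℝ, ℝ) ∞ g U
  eq : ∀ x ∈ U, ∀ v, ddc g x v = θ x v

/-- `θ` is a smooth closed real `(1,1)`-form: it is locally of the form `i ∂∂̄ g`, `g` smooth. -/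
def IsClosedForm (θ : Form X) : Prop :=
  ∀ x : X, ∃ U : Set X, IsOpen U ∧ x ∈ U ∧ ∃ g : X → ℝ, IsPotential θ g U

/-- `κ` is a Kähler form: a smooth closed positive `(1,1)`-form. -/
def IsKahlerForm (κ : Form X) : Prop :=
  IsClosedForm κ ∧ ∀ (x : X) (v : TangentSpace 𝓘(ℂ, ℂ × ℂ) x), v ≠ 0 → 0 < κ x v

/-- The Bott-Chern class of `α` is nef: for every `ε > 0` it contains a smooth form which is at
least `- ε κ`. -/
def IsNef (κ α : Form X) : Prop :=
  ∀ ε : ℝ, 0 < ε → ∃ u : X → ℝ, ContMDiff 𝓘(ℝ, ℂ × ℂ) 𝓘(ℝ, ℝ) ∞ u ∧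
    ∀ x v, - ε * κ x v ≤ α x v + ddc u x v

/-- The Bott-Chern class of `α` contains a smooth form which is nonnegative at every point. -/
def HasNonnegRep (α : Form X) : Prop :=
  ∃ u : X → ℝ, ContMDiff 𝓘(ℝ, ℂ × ℂ) 𝓘(ℝ, ℝ) ∞ u ∧ ∀ x v, 0 ≤ α x v + ddc u x v

/-- The function `f` is locally integrable on the open subset `U` of the domain of the chart `e`, and
`i ∂∂̄ f ≥ 0` on `U` in the sense of currents: `f` is almost everywhere equal to a plurisubharmonic
function on `U`. -/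
structure WeaklyPsh (e : OpenPartialHomeomorph X (ℂ × ℂ)) (U : Set X) (f : X → ℝ) : Prop where
  integrable : LocallyIntegrableOn (f ∘ e.symm) (e '' U)
  nonneg : ∀ χ : ℂ × ℂ → ℝ, ContDiff ℝ ∞ χ → HasCompactSupport χ → tsupport χ ⊆ e '' U →
    (∀ z, 0 ≤ χ z) → ∀ v, 0 ≤ ∫ z, f (e.symm z) * levi χ z v

/-- The Bott-Chern class of `α` is big: it contains a Kähler current `α + i ∂∂̄ ψ ≥ δ κ`, `δ > 0`. Here
`ψ` is a locally integrable function such that locally, if `g` and `h` are potentials of `α` and `κ`,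
`ψ + g - δ h` is plurisubharmonic (after a change on a set of measure zero). -/
def IsBig (κ α : Form X) : Prop :=
  ∃ δ : ℝ, 0 < δ ∧ ∃ ψ : X → ℝ, ∀ x : X, ∃ U : Set X, IsOpen U ∧ x ∈ U ∧
    U ⊆ (chartAt (ℂ × ℂ) x).source ∧ ∃ g h : X → ℝ, IsPotential α g U ∧ IsPotential κ h U ∧
      WeaklyPsh (chartAt (ℂ × ℂ) x) U (fun y => ψ y + g y - δ * h y)

end

end Pool.Agent.V7H49.Nef
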