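import Pool.Agent.V7H49.Nef.LogInt

/-! Bounds for the cut-off logarithms and integrability of the Green function. -/

set_option autoImplicit false

open Complex MeasureTheory Topology Set Filter
open scoped Manifold ContDiff ComplexConjugate MatrixGroups

namespace Pool.Agent.V7H49.Nef

lemma FF_nonpos {ε s : ℝ} (hε : 0 ≤ ε) (hs : 0 < s) : FF ε s ≤ 0 := by
  rcases le_or_gt 2 s with h | h
  · exact (FF_zero ε h).le
  · unfold FF
    rw [neg_nonpos]
    refine intervalIntegral.integral_nonneg h.le fun t ht => ?_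
    have : 0 < t := lt_of_lt_of_le hs ht.1
    exact div_nonneg (AA_nonneg t) (by linarith)

lemma FF_mono {ε s : ℝ} (hε : 0 ≤ ε) (hs : 0 < s) : FF 0 s ≤ FF ε s := by
  rcases le_or_gt 2 s with h | h
  · rw [FF_zero ε h, FF_zero 0 h]
  · unfold FF
    rw [neg_le_neg_iff]
    refine intervalIntegral.integral_mono_on h.le (intOn (by linarith) (by linarith))
      (intOn (by linarith) (by linarith)) fun t ht => ?_
    have : 0 < t := lt_of_lt_of_le hs ht.1
    rw [add_zero]
    exact div_le_div_of_nonneg_left (AA_nonneg t) this (by linarith)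

lemma FF_abs {s : ℝ} (hs : 0 < s) : |FF 0 s| ≤ |Real.log s| + Real.log 2 := by
  have h2 : (0 : ℝ) < Real.log 2 := Real.log_pos (by norm_num)
  rcases le_or_gt 2 s with h | h
  · rw [FF_zero 0 h, abs_zero]
    positivity
  · rw [abs_of_nonpos (FF_nonpos le_rfl hs)]
    unfold FF
    rw [neg_neg]
    have h1 : ∫ t in s..2, AA t / (t + 0) ≤ ∫ t in s..2, 1 / t := by
      refine intervalIntegral.integral_mono_on h.le (intOn (by linarith) (by linarith)) ?_
        fun t ht => ?_
      · apply intervalIntegral.intervalIntegrable_one_div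
        · intro t ht
          rw [uIcc_of_le h.le] at ht
          exact (lt_of_lt_of_le hs ht.1).ne'
        · exact continuousOn_id
      · have : 0 < t := lt_of_lt_of_le hs ht.1
        rw [add_zero]
        exact div_le_div_of_nonneg_right (AA_le_one t) this.le
    rw [integral_one_div_of_pos hs (by norm_num), Real.log_div (by norm_num) hs.ne'] at h1
    have := neg_abs_le (Real.log s)
    linarith

lemma FF_conv {ε s : ℝ} (hε : 0 ≤ ε) (hs : 0 < s) (hs2 : s ≤ 2) :
    |FF ε s - FF 0 s| ≤ ε / s ^ 2 * (2 - s) := by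
  unfold FF
  rw [neg_sub_neg, ← intervalIntegral.integral_sub (intOn (by linarith) (by linarith))
    (intOn (by linarith) (by linarith))]
  have h1 : ∀ t ∈ uIoc s 2, ‖AA t / (t + 0) - AA t / (t + ε)‖ ≤ ε / s ^ 2 := by
    intro t ht
    rw [uIoc_of_le hs2] at ht
    have ht0 : 0 < t := hs.trans ht.1
    have e1 : AA t / (t + 0) - AA t / (t + ε) = AA t * (ε / (t * (t + ε))) := by
      have : t + ε ≠ 0 := by linarith
      rw [add_zero]
      field_simp
      ring
    rw [e1, Real.norm_eq_abs, abs_of_nonneg]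
    · calc AA t * (ε / (t * (t + ε))) ≤ 1 * (ε / (t * (t + ε))) := by
            apply mul_le_mul_of_nonneg_right (AA_le_one t)
            positivity
        _ = ε / (t * (t + ε)) := one_mul _
        _ ≤ ε / s ^ 2 := by
            apply div_le_div_of_nonneg_left hε (by positivity)
            nlinarith [ht.1]
    · exact mul_nonneg (AA_nonneg t) (by positivity)
  have h2 := intervalIntegral.norm_integral_le_of_norm_le_const h1
  rwa [Real.norm_eq_abs, abs_of_nonneg (by linarith : (0 : ℝ) ≤ 2 - s)] at h2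

lemma FF_tendsto {s : ℝ} (hs : 0 < s) :
    Tendsto (fun n : ℕ => FF (1 / ((n : ℝ) + 1)) s) atTop (𝓝 (FF 0 s)) := by
  rcases le_or_gt 2 s with h | h
  · simp only [FF_zero _ h]
    exact tendsto_const_nhds
  · rw [tendsto_iff_dist_tendsto_zero]
    have h1 : Tendsto (fun n : ℕ => 1 / ((n : ℝ) + 1) * ((2 - s) / s ^ 2)) atTop (𝓝 0) := by
      have := (tendsto_one_div_add_atTop_nhds_zero_nat (𝕜 := ℝ)).mul_const ((2 - s) / s ^ 2)
      rwa [zero_mul] at this
    refine squeeze_zero (fun _ => dist_nonneg) (fun n => ?_) h1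
    rw [Real.dist_eq]
    refine (FF_conv (by positivity) hs h.le).trans (le_of_eq ?_)
    ring

/-- `sf ∘ Mo (1, γ)` vanishes only on the graph. -/
lemma sf_pos_of {g : GG} {p : ℂ × ℂ} (hp : p ∈ DD) (hne : p.1 ≠ mf g p.2) :
    0 < sf (Mo (1, g) p) := by
  have h1 : (Mo (1, g) p).1 = p.1 := mo_one hp.1
  have h2 : (Mo (1, g) p).2 = mf g p.2 := mo_mf g hp.2
  have h3 := (Mo_mem (1, g) p).2
  unfold sf
  rw [h1, h2]
  rw [h2] at h3
  have h4 := hp.1
  have h5 : 0 < normSq (p.1 - mf g p.2) := normSq_pos.mpr (sub_ne_zero.mpr hne)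
  positivity

lemma contDiffAt_sfMo (g : GG) {p : ℂ × ℂ} (hp : p ∈ DD) :
    ContDiffAt ℝ ∞ (fun q => sf (Mo (1, g) q)) p :=
  (contDiffAt_sf (Mo_mem _ _)).comp p
    (((contDiffAt_Mo (1, g) hp).restrict_scalars ℝ).of_le (by exact_mod_cast le_top))

lemma ae_sf_pos (g : GG) {K : Set (ℂ × ℂ)} (hK : MeasurableSet K) (hKD : K ⊆ DD) :
    ∀ᵐ p ∂(volume.restrict K), 0 < sf (Mo (1, g) p) := by
  have h1 : ∀ᵐ p : ℂ × ℂ, p.1 ≠ mf g p.2 := by
    rw [ae_iff]
    simpa using graph_null g
  rw [ae_restrict_iff' hK]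
  filter_upwards [h1] with p hp hpK
  exact sf_pos_of (hKD hpK) hp

lemma green_int (g : GG) {K : Set (ℂ × ℂ)} (hK : IsCompact K) (hKD : K ⊆ DD) :
    IntegrableOn (fun p => FF 0 (sf (Mo (1, g) p))) K := by
  have hcont : ContinuousOn (fun p : ℂ × ℂ => Real.log (4 * p.1.im * (mo g p.2).im)) K := by
    intro p hp
    have hpD := hKD hp
    refine ContinuousAt.continuousWithinAt ?_
    have c1 : ContinuousAt (fun p : ℂ × ℂ => (mo g p.2).im) p := by
      refine Complex.continuous_im.continuousAt.comp ?_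
      exact ContinuousAt.comp (g := mo g) (hasDerivAt_mo g hpD.2).continuousAt continuousAt_snd
    have c2 : ContinuousAt (fun p : ℂ × ℂ => p.1.im) p :=
      (Complex.continuous_im.comp continuous_fst).continuousAt
    refine ((continuousAt_const.mul c2).mul c1).log ?_
    have h1 : 0 < p.1.im := hpD.1
    have h2 : 0 < (mo g p.2).im := mo_im_pos g p.2
    exact (mul_pos (mul_pos four_pos h1) h2).ne'
  obtain ⟨C, hC⟩ := hK.exists_bound_of_continuousOn hcont
  have hb : IntegrableOn (fun p : ℂ × ℂ => |Real.log (normSq (p.1 - mf g p.2))| +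
      (C + Real.log 2)) K := by
    refine Integrable.add (log_int g hK hKD).abs ?_
    exact (continuousOn_const).integrableOn_compact hK
  have hnull : K \ {p : ℂ × ℂ | p.1 = mf g p.2} =ᵐ[volume] K :=
    sdiff_null_ae_eq_self (graph_null g)
  refine Integrable.mono' hb ?_ ?_
  · rw [← Measure.restrict_congr_set hnull]
    refine ContinuousOn.aestronglyMeasurable ?_ ?_
    · intro p hp
      have h1 := sf_pos_of (hKD hp.1) hp.2
      refine ContinuousAt.continuousWithinAt ?_
      exact ContinuousAt.comp (g := FF 0) (contDiffAt_FF le_rfl (by linarith)).continuousAt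
        (contDiffAt_sfMo g (hKD hp.1)).continuousAt
    · refine hK.measurableSet.diff ?_
      exact measurableSet_eq_fun measurable_fst ((measurable_mf g).comp measurable_snd)
  · filter_upwards [ae_sf_pos g hK.measurableSet hKD, ae_restrict_mem hK.measurableSet,
      ae_restrict_of_ae (show ∀ᵐ p : ℂ × ℂ, p.1 ≠ mf g p.2 by
        rw [ae_iff]
        simpa using graph_null g)] with p hp hpK hne
    have h1 := FF_abs hp
    have h2 := hC p hpK
    have h3 : Real.log (sf (Mo (1, g) p)) = Real.log (normSq (p.1 - mf g p.2)) -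
        Real.log (4 * p.1.im * (mo g p.2).im) := by
      have e1 : (Mo (1, g) p).1 = p.1 := mo_one (hKD hpK).1
      have e2 : (Mo (1, g) p).2 = mo g p.2 := rfl
      unfold sf
      rw [e1, e2, mo_mf g (hKD hpK).2, Real.log_div]
      · exact (normSq_pos.mpr (sub_ne_zero.mpr hne)).ne'
      · have := (hKD hpK).1
        have := mo_im_pos g p.2
        rw [← mo_mf g (hKD hpK).2]
        positivity
    rw [Real.norm_eq_abs] at h2 ⊢
    rw [h3] at h1
    have h4 := abs_sub (Real.log (normSq (p.1 - mf g p.2))) (Real.log (4 * p.1.im * (mo g p.2).im))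
    linarith

end Pool.Agent.V7H49.Nef
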