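import Pool.Agent.V7H49.Nef.Pos

/-! Integration by parts for the complex Hessian. -/

set_option autoImplicit false

open Complex MeasureTheory Topology Set Filter
open scoped Manifold ContDiff ComplexConjugate MatrixGroups

namespace Pool.Agent.V7H49.Nef

instance instHaar : (volume : Measure (ℂ × ℂ)).IsAddHaarMeasure :=
  inferInstanceAs ((volume : Measure ℂ).prod (volume : Measure ℂ)).IsAddHaarMeasure

lemma int_cont {F g : ℂ × ℂ → ℝ} (hF : ∀ x ∈ tsupport g, ContinuousAt F x) (hg : Continuous g)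
    (hc : HasCompactSupport g) : Integrable (fun x => F x * g x) := by
  have h1 : Continuous (fun x => F x * g x) := by
    refine continuous_of_tsupport fun x hx => ?_
    have hx' : x ∈ tsupport g := tsupport_mul_subset_right hx
    exact (hF x hx').mul hg.continuousAt
  exact h1.integrable_of_hasCompactSupport (hc.mul_left)

lemma fderiv_fderiv_apply {f : ℂ × ℂ → ℝ} {x : ℂ × ℂ} (hf : ContDiffAt ℝ 2 f x) (v : ℂ × ℂ) :
    fderiv ℝ (fun y => fderiv ℝ f y v) x v = fderiv ℝ (fderiv ℝ f) x v v := by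
  have h := (diff_fderiv hf).hasFDerivAt.clm_apply (hasFDerivAt_const v x)
  rw [h.fderiv]
  simp

lemma ibp1 {ψ χ : ℂ × ℂ → ℝ} (hχ : ContDiff ℝ ∞ χ) (hc : HasCompactSupport χ)
    (hψ : ∀ x ∈ tsupport χ, ContDiffAt ℝ 2 ψ x) (v : ℂ × ℂ) :
    ∫ z, ψ z * fderiv ℝ (fderiv ℝ χ) z v v = ∫ z, fderiv ℝ (fderiv ℝ ψ) z v v * χ z := by
  have hχ2 : ContDiff ℝ 2 χ := hχ.of_le two_le_infty
  have hd1 : ContDiff ℝ 1 (fun y => fderiv ℝ χ y v) :=
    (hχ2.fderiv_right (m := 1) (by norm_num)).clm_apply contDiff_const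
  have hts1 : tsupport (fun y => fderiv ℝ χ y v) ⊆ tsupport χ := by
    refine closure_minimal ?_ (isClosed_tsupport χ)
    intro y hy
    by_contra hcon
    apply hy
    have : fderiv ℝ χ y = 0 := by
      have h0 : χ =ᶠ[𝓝 y] fun _ => 0 := notMem_tsupport_iff_eventuallyEq.mp hcon
      rw [h0.fderiv_eq]
      simp
    show fderiv ℝ χ y v = 0
    rw [this]
    rfl
  have hc1 : HasCompactSupport (fun y => fderiv ℝ χ y v) :=
    hc.of_isClosed_subset (isClosed_tsupport _) hts1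
  have hd2c : Continuous (fun y => fderiv ℝ (fun z => fderiv ℝ χ z v) y v) :=
    ((hd1.fderiv_right (m := 0) (by norm_num)).continuous).clm_apply continuous_const
  have hts2 : tsupport (fun y => fderiv ℝ (fun z => fderiv ℝ χ z v) y v) ⊆ tsupport χ := by
    refine closure_minimal ?_ (isClosed_tsupport χ)
    intro y hy
    by_contra hcon
    apply hy
    have h0 : χ =ᶠ[𝓝 y] fun _ => 0 := notMem_tsupport_iff_eventuallyEq.mp hcon
    have h1 : (fun z => fderiv ℝ χ z v) =ᶠ[𝓝 y] fun _ => 0 := by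
      filter_upwards [h0.fderiv (𝕜 := ℝ)] with z hz
      rw [hz]
      simp
    show fderiv ℝ (fun z => fderiv ℝ χ z v) y v = 0
    rw [h1.fderiv_eq]
    simp
  have hc2 : HasCompactSupport (fun y => fderiv ℝ (fun z => fderiv ℝ χ z v) y v) :=
    hc.of_isClosed_subset (isClosed_tsupport _) hts2
  have hψd : ∀ x ∈ tsupport χ, ContinuousAt (fun y => fderiv ℝ ψ y v) x := by
    intro x hx
    exact ((diff_fderiv (hψ x hx)).continuousAt).clm_apply continuousAt_const
  have e1 : ∫ z, ψ z * fderiv ℝ (fun y => fderiv ℝ χ y v) z v =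
      - ∫ z, fderiv ℝ ψ z v * fderiv ℝ χ z v := by
    refine integral_mul_fderiv_eq_neg_fderiv_mul_of_integrable ?_ ?_ ?_ ?_ ?_
    · exact int_cont (fun x hx => hψd x (hts1 hx)) hd1.continuous hc1
    · exact int_cont (fun x hx => (hψ x (hts2 hx)).continuousAt) hd2c hc2
    · exact int_cont (fun x hx => (hψ x (hts1 hx)).continuousAt) hd1.continuous hc1
    · intro x hx
      exact (hψ x (hts1 hx)).differentiableAt (by norm_num)
    · intro x hx
      exact hd1.differentiable (by norm_num) x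
  have e2 : ∫ z, fderiv ℝ ψ z v * fderiv ℝ χ z v =
      - ∫ z, fderiv ℝ (fun y => fderiv ℝ ψ y v) z v * χ z := by
    refine integral_mul_fderiv_eq_neg_fderiv_mul_of_integrable (f := fun y => fderiv ℝ ψ y v)
      (g := χ) ?_ ?_ ?_ ?_ ?_
    · refine int_cont (fun x hx => ?_) hχ.continuous hc
      have h3 : ContDiffAt ℝ 1 (fun y => fderiv ℝ ψ y v) x :=
        ((hψ x hx).fderiv_right (m := 1) (by norm_num)).clm_apply contDiffAt_const
      exact ((h3.fderiv_right (m := 0) (by norm_num)).continuousAt).clm_apply continuousAt_const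
    · exact int_cont (fun x hx => hψd x (hts1 hx)) hd1.continuous hc1
    · exact int_cont hψd hχ.continuous hc
    · intro x hx
      exact (diff_fderiv (hψ x hx)).clm_apply (differentiableAt_const v)
    · intro x hx
      exact hχ.differentiable (by simp) x
  have e3 : ∫ z, ψ z * fderiv ℝ (fderiv ℝ χ) z v v =
      ∫ z, ψ z * fderiv ℝ (fun y => fderiv ℝ χ y v) z v := by
    congr 1
    funext z
    rw [fderiv_fderiv_apply hχ2.contDiffAt]
  have e4 : ∫ z, fderiv ℝ (fderiv ℝ ψ) z v v * χ z =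
      ∫ z, fderiv ℝ (fun y => fderiv ℝ ψ y v) z v * χ z := by
    congr 1
    funext z
    by_cases hz : z ∈ tsupport χ
    · rw [fderiv_fderiv_apply (hψ z hz)]
    · rw [image_eq_zero_of_notMem_tsupport hz]
      simp
  rw [e3, e1, e2, neg_neg, e4]

lemma levi_support {χ : ℂ × ℂ → ℝ} (v : ℂ × ℂ) :
    tsupport (fun z => levi χ z v) ⊆ tsupport χ := by
  refine closure_minimal ?_ (isClosed_tsupport χ)
  intro y hy
  by_contra hcon
  apply hy
  have h0 : χ =ᶠ[𝓝 y] fun _ => 0 := notMem_tsupport_iff_eventuallyEq.mp hcon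
  show levi χ y v = 0
  rw [levi_congr h0, levi_const]

lemma snd_support {χ : ℂ × ℂ → ℝ} (v : ℂ × ℂ) :
    tsupport (fun z => fderiv ℝ (fderiv ℝ χ) z v v) ⊆ tsupport χ := by
  refine closure_minimal ?_ (isClosed_tsupport χ)
  intro y hy
  by_contra hcon
  apply hy
  have h0 : χ =ᶠ[𝓝 y] fun _ => 0 := notMem_tsupport_iff_eventuallyEq.mp hcon
  show fderiv ℝ (fderiv ℝ χ) y v v = 0
  have h1 : fderiv ℝ χ =ᶠ[𝓝 y] fun _ => 0 := by
    filter_upwards [h0.fderiv (𝕜 := ℝ)] with z hz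
    rw [hz]
    simp
  rw [h1.fderiv_eq]
  simp

lemma snd_cont {χ : ℂ × ℂ → ℝ} (hχ : ContDiff ℝ ∞ χ) (v : ℂ × ℂ) :
    Continuous (fun z => fderiv ℝ (fderiv ℝ χ) z v v) := by
  have hχ2 : ContDiff ℝ 2 χ := hχ.of_le two_le_infty
  have h1 : ContDiff ℝ 1 (fderiv ℝ χ) := hχ2.fderiv_right (m := 1) (by norm_num)
  have h2 : Continuous (fderiv ℝ (fderiv ℝ χ)) := (h1.fderiv_right (m := 0) (by norm_num)).continuous
  exact (h2.clm_apply continuous_const).clm_apply continuous_const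

lemma levi_cont {χ : ℂ × ℂ → ℝ} (hχ : ContDiff ℝ ∞ χ) (v : ℂ × ℂ) :
    Continuous (fun z => levi χ z v) := by
  unfold levi
  exact ((snd_cont hχ v).add (snd_cont hχ (I • v))).div_const 4

/-- Integration by parts for the complex Hessian. -/
lemma ibp {ψ χ : ℂ × ℂ → ℝ} (hχ : ContDiff ℝ ∞ χ) (hc : HasCompactSupport χ)
    (hψ : ∀ x ∈ tsupport χ, ContDiffAt ℝ 2 ψ x) (v : ℂ × ℂ) :
    ∫ z, ψ z * levi χ z v = ∫ z, levi ψ z v * χ z := by
  have i1 : ∀ v : ℂ × ℂ, Integrable (fun z => ψ z * fderiv ℝ (fderiv ℝ χ) z v v) := fun v =>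
    int_cont (fun x hx => (hψ x (snd_support v hx)).continuousAt) (snd_cont hχ v)
      (hc.of_isClosed_subset (isClosed_tsupport _) (snd_support v))
  have i2 : ∀ v : ℂ × ℂ, Integrable (fun z => fderiv ℝ (fderiv ℝ ψ) z v v * χ z) := fun v => by
    refine int_cont (fun x hx => ?_) hχ.continuous hc
    have h3 : ContDiffAt ℝ 1 (fderiv ℝ ψ) x := (hψ x hx).fderiv_right (m := 1) (by norm_num)
    exact (((h3.fderiv_right (m := 0) (by norm_num)).continuousAt).clm_apply
      continuousAt_const).clm_apply continuousAt_const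
  unfold levi
  have e1 : (fun z => ψ z * ((fderiv ℝ (fderiv ℝ χ) z v v +
      fderiv ℝ (fderiv ℝ χ) z (I • v) (I • v)) / 4)) = fun z =>
      (ψ z * fderiv ℝ (fderiv ℝ χ) z v v + ψ z * fderiv ℝ (fderiv ℝ χ) z (I • v) (I • v)) / 4 := by
    funext z
    ring
  have e2 : (fun z => (fderiv ℝ (fderiv ℝ ψ) z v v +
      fderiv ℝ (fderiv ℝ ψ) z (I • v) (I • v)) / 4 * χ z) = fun z =>
      (fderiv ℝ (fderiv ℝ ψ) z v v * χ z + fderiv ℝ (fderiv ℝ ψ) z (I • v) (I • v) * χ z) / 4 := by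
    funext z
    ring
  rw [e1, e2, integral_div, integral_div, integral_add (i1 v) (i1 _), integral_add (i2 v) (i2 _),
    ibp1 hχ hc hψ, ibp1 hχ hc hψ]

end Pool.Agent.V7H49.Nef
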