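import Pool.Agent.V7H49.Nef.Defs

/-! Calculus of the complex Hessian. -/

set_option autoImplicit false

open Complex MeasureTheory Topology Set Filter
open scoped Manifold ContDiff

namespace Pool.Agent.V7H49.Nef

lemma fderiv_eventuallyEq {E F : Type*} [NormedAddCommGroup E] [NormedSpace ℝ E]
    [NormedAddCommGroup F] [NormedSpace ℝ F] {f g : E → F} {p : E} (h : f =ᶠ[𝓝 p] g) :
    fderiv ℝ f =ᶠ[𝓝 p] fderiv ℝ g := h.fderiv

lemma levi_congr {f g : ℂ × ℂ → ℝ} {p : ℂ × ℂ} (h : f =ᶠ[𝓝 p] g) (v : ℂ × ℂ) :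
    levi f p v = levi g p v := by
  unfold levi
  rw [(fderiv_eventuallyEq h).fderiv_eq]

lemma diff_fderiv {E F : Type*} [NormedAddCommGroup E] [NormedSpace ℝ E]
    [NormedAddCommGroup F] [NormedSpace ℝ F] {f : E → F} {p : E} (hf : ContDiffAt ℝ 2 f p) :
    DifferentiableAt ℝ (fderiv ℝ f) p :=
  (hf.fderiv_right (m := 1) (by norm_num)).differentiableAt (by norm_num)

lemma ev_diff {E F : Type*} [NormedAddCommGroup E] [NormedSpace ℝ E]
    [NormedAddCommGroup F] [NormedSpace ℝ F] {f : E → F} {p : E} (hf : ContDiffAt ℝ 2 f p) :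
    ∀ᶠ q in 𝓝 p, DifferentiableAt ℝ f q := by
  filter_upwards [hf.eventually (by norm_num)] with q hq
  exact hq.differentiableAt (by norm_num)

lemma levi_add {f g : ℂ × ℂ → ℝ} {p : ℂ × ℂ} (hf : ContDiffAt ℝ 2 f p)
    (hg : ContDiffAt ℝ 2 g p) (v : ℂ × ℂ) :
    levi (fun q => f q + g q) p v = levi f p v + levi g p v := by
  have h1 : fderiv ℝ (fun q => f q + g q) =ᶠ[𝓝 p] fun q => fderiv ℝ f q + fderiv ℝ g q := by
    filter_upwards [ev_diff hf, ev_diff hg] with q h1 h2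
    exact fderiv_fun_add h1 h2
  unfold levi
  rw [h1.fderiv_eq, fderiv_fun_add (diff_fderiv hf) (diff_fderiv hg)]
  simp only [_root_.add_apply]
  ring

lemma levi_const_mul {f : ℂ × ℂ → ℝ} {p : ℂ × ℂ} (hf : ContDiffAt ℝ 2 f p) (c : ℝ)
    (v : ℂ × ℂ) : levi (fun q => c * f q) p v = c * levi f p v := by
  have h1 : fderiv ℝ (fun q => c * f q) =ᶠ[𝓝 p] fun q => c • fderiv ℝ f q := by
    filter_upwards [ev_diff hf] with q h1
    exact fderiv_const_mul h1 c
  unfold levi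
  rw [h1.fderiv_eq, fderiv_fun_const_smul (diff_fderiv hf)]
  simp only [_root_.smul_apply, smul_eq_mul]
  ring

lemma levi_sub {f g : ℂ × ℂ → ℝ} {p : ℂ × ℂ} (hf : ContDiffAt ℝ 2 f p)
    (hg : ContDiffAt ℝ 2 g p) (v : ℂ × ℂ) :
    levi (fun q => f q - g q) p v = levi f p v - levi g p v := by
  have h := levi_add hf (contDiffAt_const.mul hg : ContDiffAt ℝ 2 (fun q => (-1 : ℝ) * g q) p) v
  rw [levi_const_mul hg] at h
  rw [show (fun q => f q - g q) = fun q => f q + (-1 : ℝ) * g q by ext; ring, h]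
  ring

lemma levi_const (c : ℝ) (p v : ℂ × ℂ) : levi (fun _ => c) p v = 0 := by
  unfold levi
  have : fderiv ℝ (fun _ : ℂ × ℂ => c) = fun _ => 0 := by
    funext q
    exact fderiv_const_apply c
  rw [this]
  simp

/-- The second derivative in the direction `v` from a line. -/
lemma snd_of_line {f : ℂ × ℂ → ℝ} {p v : ℂ × ℂ} (hf : ContDiffAt ℝ 2 f p) {φ' : ℝ → ℝ} {c : ℝ}
    (h1 : ∀ᶠ t : ℝ in 𝓝 0, HasDerivAt (fun t : ℝ => f (p + t • v)) (φ' t) t)
    (h2 : HasDerivAt φ' c 0) : fderiv ℝ (fderiv ℝ f) p v v = c := by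
  have hl : ∀ t : ℝ, HasDerivAt (fun t : ℝ => p + t • v) v t := fun t => by
    simpa using ((hasDerivAt_id t).smul_const v).const_add p
  have h3 : ∀ᶠ t : ℝ in 𝓝 0, fderiv ℝ f (p + t • v) v = φ' t := by
    have hc : Tendsto (fun t : ℝ => p + t • v) (𝓝 0) (𝓝 p) := by
      have := (hl 0).continuousAt.tendsto
      simpa using this
    filter_upwards [h1, hc.eventually (ev_diff hf)] with t h1 h2
    exact (h2.hasFDerivAt.comp_hasDerivAt t (hl t)).unique h1
  have h4 : HasDerivAt (fun t : ℝ => fderiv ℝ f (p + t • v) v) (fderiv ℝ (fderiv ℝ f) p v v) 0 := by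
    have h5 : HasFDerivAt (fderiv ℝ f) (fderiv ℝ (fderiv ℝ f) p) (p + (0 : ℝ) • v) := by
      simpa using (diff_fderiv hf).hasFDerivAt
    have h6 : HasDerivAt (fun t : ℝ => fderiv ℝ f (p + t • v)) (fderiv ℝ (fderiv ℝ f) p v) 0 :=
      h5.comp_hasDerivAt (0 : ℝ) (hl 0)
    simpa using h6.clm_apply (hasDerivAt_const (0 : ℝ) v)
  exact h4.unique (h2.congr_of_eventuallyEq h3)

/-- The squared norm of `∂f (v)`. -/
noncomputable def gsq (f : ℂ × ℂ → ℝ) (p v : ℂ × ℂ) : ℝ :=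
  (fderiv ℝ f p v ^ 2 + fderiv ℝ f p (I • v) ^ 2) / 4

/-- The Hessian of a composition with a function of one variable. -/
lemma levi_comp_real {K : ℝ → ℝ} {f : ℂ × ℂ → ℝ} {p : ℂ × ℂ} (hf : ContDiffAt ℝ 2 f p)
    (hK : ContDiffAt ℝ 2 K (f p)) (v : ℂ × ℂ) :
    levi (fun q => K (f q)) p v = deriv K (f p) * levi f p v + deriv (deriv K) (f p) * gsq f p v := by
  have hK1 : ∀ᶠ q in 𝓝 p, DifferentiableAt ℝ K (f q) :=
    hf.continuousAt.eventually (ev_diff hK)
  have h1 : fderiv ℝ (fun q => K (f q)) =ᶠ[𝓝 p] fun q => deriv K (f q) • fderiv ℝ f q := by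
    filter_upwards [ev_diff hf, hK1] with q h1 h2
    exact (h2.hasDerivAt.comp_hasFDerivAt q h1.hasFDerivAt).fderiv
  have hK2 : DifferentiableAt ℝ (deriv K) (f p) := by
    have h := diff_fderiv hK
    have h3 : deriv K = fun t => fderiv ℝ K t 1 := by
      funext t
      exact (fderiv_apply_one_eq_deriv).symm
    rw [h3]
    exact h.clm_apply (differentiableAt_const _)
  have h2 : HasFDerivAt (fun q => deriv K (f q) • fderiv ℝ f q)
      (deriv K (f p) • fderiv ℝ (fderiv ℝ f) p +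
        (deriv (deriv K) (f p) • fderiv ℝ f p).smulRight (fderiv ℝ f p)) p :=
    (hK2.hasDerivAt.comp_hasFDerivAt p (hf.differentiableAt (by norm_num)).hasFDerivAt).smul
      (diff_fderiv hf).hasFDerivAt
  unfold levi gsq
  rw [h1.fderiv_eq, h2.fderiv]
  simp only [_root_.add_apply, _root_.smul_apply, ContinuousLinearMap.smulRight_apply, smul_eq_mul]
  ring

/-- The Hessian of a composition with a holomorphic map. -/
lemma levi_comp_hol {φ : ℂ × ℂ → ℂ × ℂ} {f : ℂ × ℂ → ℝ} {p : ℂ × ℂ}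
    (hφ : ContDiffAt ℂ 2 φ p) (hf : ContDiffAt ℝ 2 f (φ p)) (v : ℂ × ℂ) :
    levi (fun q => f (φ q)) p v = levi f (φ p) (fderiv ℂ φ p v) := by
  have hφr : ContDiffAt ℝ 2 φ p := hφ.restrict_scalars ℝ
  have e1 : ∀ᶠ q in 𝓝 p, fderiv ℝ φ q = (fderiv ℂ φ q).restrictScalars ℝ := by
    filter_upwards [hφ.eventually (by norm_num)] with q hq
    exact ((hq.differentiableAt (by norm_num)).hasFDerivAt.restrictScalars ℝ).fderiv
  have e2 : ∀ᶠ q in 𝓝 p, ∀ u, fderiv ℝ φ q (I • u) = I • fderiv ℝ φ q u := by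
    filter_upwards [e1] with q hq u
    rw [hq]
    exact (fderiv ℂ φ q).map_smul I u
  have h1 : fderiv ℝ (fun q => f (φ q)) =ᶠ[𝓝 p] fun q => (fderiv ℝ f (φ q)).comp (fderiv ℝ φ q) := by
    filter_upwards [hφr.continuousAt.eventually (ev_diff hf), ev_diff hφr] with q h1 h2
    exact (h1.hasFDerivAt.comp q h2.hasFDerivAt).fderiv
  have hφ2 := diff_fderiv hφr
  have hf2 := diff_fderiv hf
  have h2 : ∀ u : ℂ × ℂ, fderiv ℝ (fun q => (fderiv ℝ f (φ q)).comp (fderiv ℝ φ q)) p u u =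
      fderiv ℝ (fderiv ℝ f) (φ p) (fderiv ℝ φ p u) (fderiv ℝ φ p u) +
        fderiv ℝ f (φ p) (fderiv ℝ (fderiv ℝ φ) p u u) := by
    intro u
    have h3 : HasFDerivAt (fun q => fderiv ℝ f (φ q))
        ((fderiv ℝ (fderiv ℝ f) (φ p)).comp (fderiv ℝ φ p)) p :=
      hf2.hasFDerivAt.comp p (hφr.differentiableAt (by norm_num)).hasFDerivAt
    rw [(h3.clm_comp hφ2.hasFDerivAt).fderiv]
    simp [ContinuousLinearMap.compL_apply, add_comm]
  have h4 : ∀ u : ℂ × ℂ, fderiv ℝ (fderiv ℝ φ) p (I • u) (I • u) = - fderiv ℝ (fderiv ℝ φ) p u u := by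
    intro u
    have happ : ∀ x : ℂ × ℂ, HasFDerivAt (fun q => fderiv ℝ φ q x)
        ((fderiv ℝ (fderiv ℝ φ) p).flip x) p := by
      intro x
      have h := hφ2.hasFDerivAt.clm_apply (hasFDerivAt_const x p)
      rwa [ContinuousLinearMap.comp_zero, zero_add] at h
    have h5 : ∀ w x : ℂ × ℂ, fderiv ℝ (fderiv ℝ φ) p w (I • x) = I • fderiv ℝ (fderiv ℝ φ) p w x := by
      intro w x
      have h6 : HasFDerivAt (fun q => fderiv ℝ φ q (I • x))
          ((fderiv ℝ (fderiv ℝ φ) p).flip (I • x)) p := happ (I • x)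
      have h7 : HasFDerivAt (fun q => I • fderiv ℝ φ q x)
          (I • (fderiv ℝ (fderiv ℝ φ) p).flip x) p := (happ x).const_smul I
      have h8 : (fun q => fderiv ℝ φ q (I • x)) =ᶠ[𝓝 p] fun q => I • fderiv ℝ φ q x := by
        filter_upwards [e2] with q hq
        exact hq x
      have h9 := (h6.congr_of_eventuallyEq h8.symm).unique h7
      have := congrArg (fun L : (ℂ × ℂ) →L[ℝ] (ℂ × ℂ) => L w) h9
      simpa using this
    have hsym := (hφr.isSymmSndFDerivAt (by simp)).eq (I • u) u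
    rw [h5, hsym, h5, smul_smul, I_mul_I, neg_one_smul]
  have h10 : fderiv ℝ φ p (I • v) = I • fderiv ℝ φ p v := e2.self_of_nhds v
  unfold levi
  rw [h1.fderiv_eq, h2, h2, h4, h10, e1.self_of_nhds]
  simp only [map_neg, ContinuousLinearMap.coe_restrictScalars']
  ring

end Pool.Agent.V7H49.Nef
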