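import Pool.Agent.V7H49.Nef.Surf

/-! Lifting functions and forms from `B × B` to the product of two half planes. -/

set_option autoImplicit false

open Complex MeasureTheory Topology Set Filter UpperHalfPlane
open scoped Manifold ContDiff ComplexConjugate MatrixGroups

namespace Pool.Agent.V7H49.Nef

lemma symm_eventually (x : XX) : ∀ᶠ p in 𝓝 (rep x), (ch2 x).symm p = Pz p := by
  filter_upwards [(ch2 x).open_target.mem_nhds (rep_mem_target x)] with p hp
  exact ch2_symm hp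

lemma ddc_eq (u : XX → ℝ) (x : XX) (v : ℂ × ℂ) :
    ddc u x v = levi (fun p => u (Pz p)) (rep x) v := by
  unfold ddc
  rw [chartAt_eq, ch2_self]
  apply levi_congr
  filter_upwards [symm_eventually x] with p hp
  rw [Function.comp_apply, hp]

lemma contMDiffAt_iff_lift {u : XX → ℝ} {x : XX} :
    ContMDiffAt 𝓘(ℝ, ℂ × ℂ) 𝓘(ℝ, ℝ) ∞ u x ↔ ContDiffAt ℝ ∞ (fun p => u (Pz p)) (rep x) := by
  have e1 : (fun p => u (Pz p)) =ᶠ[𝓝 (rep x)] u ∘ (ch2 x).symm := by
    filter_upwards [symm_eventually x] with p hp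
    rw [Function.comp_apply, hp]
  rw [_root_.contMDiffAt_iff]
  simp only [mfld_simps, contDiffWithinAt_univ, chartAt_eq, ch2_self]
  constructor
  · rintro ⟨-, h⟩
    exact h.congr_of_eventuallyEq e1
  · intro h
    refine ⟨?_, h.congr_of_eventuallyEq e1.symm⟩
    have h1 : ContinuousAt (fun p => u (Pz p)) (ch2 x x) := by
      rw [ch2_self]
      exact h.continuousAt
    have h2 : ContinuousAt (ch2 x) x := (ch2 x).continuousAt (mem_ch2_source x)
    have h3 : ContinuousAt (fun y => u (Pz (ch2 x y))) x :=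
      ContinuousAt.comp (g := fun p => u (Pz p)) h1 h2
    refine h3.congr ?_
    filter_upwards [(ch2 x).open_source.mem_nhds (mem_ch2_source x)] with y hy
    have h4 := (ch2 x).map_source hy
    rw [← ch2_symm h4, (ch2 x).left_inv hy]

/-- A smooth function lifts to a smooth function. -/
lemma lift_smooth {u : XX → ℝ} (hu : ContMDiff 𝓘(ℝ, ℂ × ℂ) 𝓘(ℝ, ℝ) ∞ u) {p : ℂ × ℂ} (hp : p ∈ DD) :
    ContDiffAt ℝ ∞ (fun p => u (Pz p)) p := by
  obtain ⟨g, hg⟩ := (Pz_eq_iff (rep_mem (Pz p)) hp).mp (Pz_rep (Pz p))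
  have h1 := contMDiffAt_iff_lift.mp (hu (Pz p))
  rw [← hg] at h1
  have h2 : ContDiffAt ℝ ∞ (Mo g) p :=
    ((contDiffAt_Mo g hp).restrict_scalars ℝ).of_le (by exact_mod_cast le_top)
  refine (h1.comp p h2).congr_of_eventuallyEq ?_
  filter_upwards [isOpen_DD.mem_nhds hp] with q hq
  rw [Function.comp_apply, Pz_Mo g hq]

/-- A form on the product of half planes is invariant. -/
def Inv (θ : ℂ × ℂ → ℂ × ℂ → ℝ) : Prop :=
  ∀ (g : GG × GG) (p : ℂ × ℂ), p ∈ DD → ∀ v, θ (Mo g p) (dMo g p v) = θ p v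

/-- The form on `B × B` defined by an invariant form. -/
noncomputable def desc (θ : ℂ × ℂ → ℂ × ℂ → ℝ) : Form XX := fun x v => θ (rep x) v

/-- A potential upstairs gives a potential downstairs. -/
lemma isPotential_of {θ : ℂ × ℂ → ℂ × ℂ → ℝ} (hθ : Inv θ) {x : XX} {W : Set (ℂ × ℂ)}
    {G : ℂ × ℂ → ℝ} (hG : ∀ p ∈ W, ContDiffAt ℝ ∞ G p) (hGθ : ∀ p ∈ W, ∀ v, levi G p v = θ p v) :
    IsPotential (desc θ) (fun y => G (ch2 x y)) ((ch2 x).source ∩ ch2 x ⁻¹' W) := by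
  have key : ∀ y ∈ (ch2 x).source ∩ ch2 x ⁻¹' W, ∃ g : GG × GG, Mo g (rep y) ∈ W ∧
      (fun p => G (ch2 x (Pz p))) =ᶠ[𝓝 (rep y)] fun p => G (Mo g p) := by
    rintro y ⟨hy1, hy2⟩
    have h1 : Pz (rep y) ∈ (ch2 x).source := by
      rw [Pz_rep]
      exact hy1
    obtain ⟨g, hg1, hg2⟩ := exists_Mo (rep_mem y) h1
    refine ⟨g, ?_, ?_⟩
    · rw [hg1, Pz_rep]
      exact hy2
    · filter_upwards [transition2 (rep_mem y) hg2] with p hp
      rw [hp.2.2.2]
  constructor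
  · intro y hy
    obtain ⟨g, hg, he⟩ := key y hy
    refine ContMDiffAt.contMDiffWithinAt (contMDiffAt_iff_lift.mpr ?_)
    have h2 : ContDiffAt ℝ ∞ (Mo g) (rep y) :=
      ((contDiffAt_Mo g (rep_mem y)).restrict_scalars ℝ).of_le (by exact_mod_cast le_top)
    exact ((hG _ hg).comp (rep y) h2).congr_of_eventuallyEq he
  · intro y hy v
    obtain ⟨g, hg, he⟩ := key y hy
    rw [ddc_eq, levi_congr he]
    rw [levi_comp_hol ((contDiffAt_Mo g (rep_mem y)).of_le (by exact_mod_cast le_top))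
      ((hG _ hg).of_le two_le_infty), fderiv_Mo g (rep_mem y), hGθ _ hg, hθ g _ (rep_mem y)]
    rfl

lemma levi_Mo {f : ℂ × ℂ → ℝ} (g : GG × GG) {p : ℂ × ℂ} (hp : p ∈ DD)
    (hf : ContDiffAt ℝ 2 f (Mo g p)) (v : ℂ × ℂ) :
    levi (fun q => f (Mo g q)) p v = levi f (Mo g p) (dMo g p v) := by
  rw [levi_comp_hol ((contDiffAt_Mo g hp).of_le (by exact_mod_cast le_top)) hf, fderiv_Mo g hp]

end Pool.Agent.V7H49.Nef
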