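import Pool.Agent.V7H49.Nef.Ibp

/-! Local integrability of the Green function. -/

set_option autoImplicit false

open Complex MeasureTheory Topology Set Filter
open scoped Manifold ContDiff ComplexConjugate MatrixGroups ENNReal

namespace Pool.Agent.V7H49.Nef

lemma r_log_le {S r : ℝ} (hS : 1 ≤ S) (hr : 0 < r) (hrS : r ≤ S) :
    r * |Real.log (r ^ 2)| ≤ 2 * S ^ 2 := by
  rw [Real.log_pow, abs_mul]
  simp only [Nat.cast_ofNat, Nat.abs_ofNat]
  rcases le_or_gt r 1 with h | h
  · have h1 := Real.abs_log_mul_self_lt r hr h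
    rw [abs_mul, abs_of_pos hr] at h1
    nlinarith
  · have h1 := Real.log_le_sub_one_of_pos hr
    have h2 := Real.log_nonneg h.le
    rw [abs_of_nonneg h2]
    nlinarith

lemma log_fin {S : ℝ} (hS : 1 ≤ S) :
    ∫⁻ ζ : ℂ, (Metric.closedBall (0 : ℂ) S).indicator
      (fun ζ => ENNReal.ofReal |Real.log (normSq ζ)|) ζ < ⊤ := by
  rw [← Complex.lintegral_comp_polarCoord_symm]
  have h1 : ∀ p : ℝ × ℝ, p ∈ polarCoord.target → ENNReal.ofReal p.1 •
      (Metric.closedBall (0 : ℂ) S).indicator (fun ζ => ENNReal.ofReal |Real.log (normSq ζ)|)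
        (Complex.polarCoord.symm p) ≤
      (Ioc (0 : ℝ) S ×ˢ Ioo (-Real.pi) Real.pi).indicator (fun _ => ENNReal.ofReal (2 * S ^ 2)) p := by
    rintro ⟨r, θ⟩ hp
    rw [polarCoord_target] at hp
    have hr : 0 < r := hp.1
    have hn : ‖Complex.polarCoord.symm (r, θ)‖ = r := by
      rw [Complex.norm_polarCoord_symm]
      exact abs_of_pos hr
    by_cases hS' : r ≤ S
    · rw [indicator_of_mem (by rw [mem_closedBall_zero_iff, hn]; exact hS'),
        indicator_of_mem (show (r, θ) ∈ Ioc (0 : ℝ) S ×ˢ Ioo (-Real.pi) Real.pi from ⟨⟨hr, hS'⟩, hp.2⟩), normSq_eq_norm_sq, hn, smul_eq_mul,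
        ← ENNReal.ofReal_mul hr.le]
      exact ENNReal.ofReal_le_ofReal (r_log_le hS hr hS')
    · rw [indicator_of_notMem (by rw [mem_closedBall_zero_iff, hn]; exact hS')]
      simp
  have hm : MeasurableSet (Ioc (0 : ℝ) S ×ˢ Ioo (-Real.pi) Real.pi) :=
    measurableSet_Ioc.prod measurableSet_Ioo
  calc _ ≤ ∫⁻ p in polarCoord.target, (Ioc (0 : ℝ) S ×ˢ Ioo (-Real.pi) Real.pi).indicator
        (fun _ => ENNReal.ofReal (2 * S ^ 2)) p :=
        setLIntegral_mono' polarCoord.open_target.measurableSet h1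
    _ ≤ ∫⁻ p, (Ioc (0 : ℝ) S ×ˢ Ioo (-Real.pi) Real.pi).indicator
        (fun _ => ENNReal.ofReal (2 * S ^ 2)) p := setLIntegral_le_lintegral _ _
    _ = ENNReal.ofReal (2 * S ^ 2) * volume (Ioc (0 : ℝ) S ×ˢ Ioo (-Real.pi) Real.pi) :=
        lintegral_indicator_const hm _
    _ < ⊤ := by
      refine ENNReal.mul_lt_top ENNReal.ofReal_lt_top ?_
      rw [Measure.volume_eq_prod, Measure.prod_prod]
      simp only [Real.volume_Ioc, Real.volume_Ioo]
      exact ENNReal.mul_lt_top ENNReal.ofReal_lt_top ENNReal.ofReal_lt_top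

/-- The explicit formula for the action. -/
noncomputable def mf (g : GG) (z : ℂ) : ℂ := ((g.1 0 0 : ℝ) * z + (g.1 0 1 : ℝ)) / dn g z

lemma measurable_mf (g : GG) : Measurable (mf g) := by
  unfold mf dn
  fun_prop

lemma mo_mf (g : GG) {z : ℂ} (hz : 0 < z.im) : mo g z = mf g z := mo_eq g hz

lemma graph_null (g : GG) : volume {p : ℂ × ℂ | p.1 = mf g p.2} = 0 := by
  have hm : MeasurableSet {p : ℂ × ℂ | p.1 = mf g p.2} :=
    measurableSet_eq_fun measurable_fst ((measurable_mf g).comp measurable_snd)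
  rw [Measure.volume_eq_prod, Measure.prod_apply_symm hm]
  have : ∀ y : ℂ, volume ((fun x => (x, y)) ⁻¹' {p : ℂ × ℂ | p.1 = mf g p.2}) = 0 := by
    intro y
    have h2 : ((fun x => (x, y)) ⁻¹' {p : ℂ × ℂ | p.1 = mf g p.2}) = {mf g y} := by
      ext x
      simp
    rw [h2]
    simp
  simp [this]

lemma meas_log (g : GG) : Measurable (fun p : ℂ × ℂ => Real.log (normSq (p.1 - mf g p.2))) :=
  Real.measurable_log.comp ((contDiff_normSq (n := 0)).continuous.measurable.comp
    (measurable_fst.sub ((measurable_mf g).comp measurable_snd)))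

lemma log_int (g : GG) {K : Set (ℂ × ℂ)} (hK : IsCompact K) (hKD : K ⊆ DD) :
    IntegrableOn (fun p : ℂ × ℂ => Real.log (normSq (p.1 - mf g p.2))) K := by
  refine ⟨(meas_log g).aestronglyMeasurable, ?_⟩
  have hK2 : IsCompact (Prod.snd '' K) := hK.image continuous_snd
  have hcont : ContinuousOn (fun p : ℂ × ℂ => p.1 - mo g p.2) K := by
    intro p hp
    refine ContinuousAt.continuousWithinAt (continuousAt_fst.sub ?_)
    exact ContinuousAt.comp (g := mo g) (hasDerivAt_mo g (hKD hp).2).continuousAt continuousAt_snd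
  obtain ⟨S0, hS0⟩ := hK.exists_bound_of_continuousOn hcont
  set S := max S0 1 with hS
  have hS1 : 1 ≤ S := le_max_right _ _
  set L : ℂ → ℝ≥0∞ := (Metric.closedBall (0 : ℂ) S).indicator
      (fun ζ => ENNReal.ofReal |Real.log (normSq ζ)|) with hL
  have hLm : Measurable L := by
    refine Measurable.indicator ?_ Metric.isClosed_closedBall.measurableSet
    refine ENNReal.measurable_ofReal.comp ?_
    exact (Real.measurable_log.comp (contDiff_normSq (n := 0)).continuous.measurable).abs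
  have hmK2 : MeasurableSet (Prod.snd '' K) := hK2.measurableSet
  set F : ℂ × ℂ → ℝ≥0∞ := fun p => (Prod.snd '' K).indicator (fun _ => (1 : ℝ≥0∞)) p.2 *
    L (p.1 - mf g p.2) with hF
  have hFm : Measurable F := by
    refine Measurable.mul ?_ ?_
    · exact (measurable_const.indicator hmK2).comp measurable_snd
    · exact hLm.comp (measurable_fst.sub ((measurable_mf g).comp measurable_snd))
  have h1 : ∀ p ∈ K, ‖Real.log (normSq (p.1 - mf g p.2))‖ₑ ≤ F p := by
    intro p hp
    rw [hF]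
    simp only
    rw [indicator_of_mem (mem_image_of_mem _ hp), one_mul, hL, indicator_of_mem]
    · rw [Real.enorm_eq_ofReal_abs]
    · rw [mem_closedBall_zero_iff, ← mo_mf g (hKD hp).2]
      exact (hS0 p hp).trans (le_max_left _ _)
  have h2 : ∫⁻ p, F p < ⊤ := by
    rw [Measure.volume_eq_prod, lintegral_prod_symm' _ hFm]
    have h3 : ∀ y : ℂ, ∫⁻ x, F (x, y) = (Prod.snd '' K).indicator (fun _ => ∫⁻ x, L x) y := by
      intro y
      rw [hF]
      simp only
      have h4 : Measurable (fun x => L (x - mf g y)) := hLm.comp (measurable_id.sub_const _)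
      rw [lintegral_const_mul _ h4, lintegral_sub_right_eq_self (fun x => L x) (mf g y)]
      by_cases hy : y ∈ Prod.snd '' K
      · rw [indicator_of_mem hy, indicator_of_mem hy, one_mul]
      · rw [indicator_of_notMem hy, indicator_of_notMem hy, zero_mul]
    simp_rw [h3]
    rw [lintegral_indicator_const hmK2]
    exact ENNReal.mul_lt_top (log_fin hS1) hK2.measure_lt_top
  calc _ ≤ ∫⁻ p in K, F p := setLIntegral_mono' hK.measurableSet h1
    _ ≤ ∫⁻ p, F p := setLIntegral_le_lintegral _ _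
    _ < ⊤ := h2

end Pool.Agent.V7H49.Nef
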