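import Pool.Agent.V7H49.Nef.Pos

/-! A partition of unity for the group action. -/

set_option autoImplicit false

open Complex MeasureTheory Topology Set Filter UpperHalfPlane
open scoped Manifold ContDiff ComplexConjugate MatrixGroups

namespace Pool.Agent.V7H49.Nef

open Pool.Agent.H85R3.HS

lemma compact_coe {K : Set ℂ} (hK : IsCompact K) (hKU : K ⊆ {z : ℂ | 0 < z.im}) :
    IsCompact (((↑) : ℍ → ℂ) ⁻¹' K) := by
  refine UpperHalfPlane.isEmbedding_coe.isInducing.isCompact_preimage' hK ?_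
  rw [UpperHalfPlane.range_coe]
  exact hKU

lemma loc_fin {K : Set ℂ} (hK : IsCompact K) (hKU : K ⊆ {z : ℂ | 0 < z.im}) {z : ℂ}
    (hz : 0 < z.im) : ∃ S : Finset GG, ∀ᶠ w in 𝓝 z, 0 < w.im ∧ ∀ g : GG, g ∉ S → mo g w ∉ K := by
  have hK' := compact_coe hK hKU
  have hL : IsCompact (Metric.closedBall (ofComplex z) 1) := isCompact_closedBall _ _
  have hpd := movesFar.properlyDiscontinuous (by norm_num : (0 : ℝ) < 20)
  have hfin := hpd.finite_disjoint_inter_image hL hK'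
  refine ⟨hfin.toFinset, ?_⟩
  have c1 : ∀ᶠ w : ℂ in 𝓝 z, dist (ofComplex w) (ofComplex z) < 1 :=
    (cont_ofComplex hz).eventually (Metric.ball_mem_nhds _ one_pos)
  filter_upwards [c1, isOpen_uh.mem_nhds hz] with w hw1 hw2
  refine ⟨hw2, fun g hg hgK => hg ?_⟩
  rw [Set.Finite.mem_toFinset]
  exact ⟨g • ofComplex w, ⟨ofComplex w, hw1.le, rfl⟩, hgK⟩

/-- The bump function. -/
lemma exists_rho : ∃ ρ : ℂ → ℝ, ContDiff ℝ ∞ ρ ∧ HasCompactSupport ρ ∧
    tsupport ρ ⊆ {z : ℂ | 0 < z.im} ∧ (∀ z, 0 ≤ ρ z) ∧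
    ∀ z : ℂ, 0 < z.im → ∃ g : GG, ρ (mo g z) = 1 := by
  obtain ⟨K, hK, hc⟩ := cocomp
  have hKc : IsCompact (((↑) : ℍ → ℂ) '' K) := hK.image UpperHalfPlane.continuous_coe
  have hKU : (((↑) : ℍ → ℂ) '' K) ⊆ {z : ℂ | 0 < z.im} := by
    rintro _ ⟨z, -, rfl⟩
    exact z.im_pos
  obtain ⟨L, hL, hKL, hLU⟩ := exists_compact_between hKc isOpen_uh hKU
  obtain ⟨f, hf1, hf0, hf⟩ := exists_contMDiffMap_one_nhds_of_subset_interior (n := ⊤) 𝓘(ℝ, ℂ)
    hKc.isClosed hKL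
  have hts : tsupport f ⊆ L := by
    refine closure_minimal ?_ hL.isClosed
    intro z hz
    by_contra hcon
    exact hz (hf0 z hcon)
  refine ⟨f, contMDiff_iff_contDiff.mp f.contMDiff, hL.of_isClosed_subset (isClosed_tsupport _) hts,
    hts.trans hLU, fun z => (hf z).1, fun z hz => ?_⟩
  obtain ⟨g, hg, hgz⟩ := hc (ofComplex z)
  exact ⟨⟨g, hg⟩, hf1.self_of_nhdsSet _ ⟨_, hgz, rfl⟩⟩

lemma contDiffAt_mo_real (g : GG) {z : ℂ} (hz : 0 < z.im) : ContDiffAt ℝ ∞ (mo g) z :=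
  ((contDiffAt_mo g hz).restrict_scalars ℝ).of_le (by exact_mod_cast le_top)

/-- The partition of unity. -/
theorem exists_chi : ∃ χ : ℂ → ℝ, ContDiff ℝ ∞ χ ∧ HasCompactSupport χ ∧
    tsupport χ ⊆ {z : ℂ | 0 < z.im} ∧ (∀ z, 0 ≤ χ z) ∧ (∃ z, χ z ≠ 0) ∧
    ∀ z : ℂ, 0 < z.im → ∑ᶠ g : GG, χ (mo g z) = 1 := by
  obtain ⟨ρ, hρ, hρc, hρs, hρ0, hρ1⟩ := exists_rho
  set R : ℂ → ℝ := fun z => ∑ᶠ g : GG, ρ (mo g z) with hR
  have hloc : ∀ z : ℂ, 0 < z.im → ∃ S : Finset GG, ∀ᶠ w in 𝓝 z, 0 < w.im ∧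
      ∀ g : GG, g ∉ S → ρ (mo g w) = 0 := by
    intro z hz
    obtain ⟨S, hS⟩ := loc_fin hρc hρs hz
    refine ⟨S, ?_⟩
    filter_upwards [hS] with w hw
    exact ⟨hw.1, fun g hg => image_eq_zero_of_notMem_tsupport (hw.2 g hg)⟩
  have hsup : ∀ z : ℂ, 0 < z.im → (Function.support fun g : GG => ρ (mo g z)).Finite := by
    intro z hz
    obtain ⟨S, hS⟩ := hloc z hz
    refine S.finite_toSet.subset fun g hg => ?_
    by_contra hcon
    exact hg (hS.self_of_nhds.2 g hcon)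
  have hRpos : ∀ z : ℂ, 0 < z.im → 0 < R z := by
    intro z hz
    obtain ⟨g, hg⟩ := hρ1 z hz
    have h1 : ρ (mo g z) ≤ R z :=
      single_le_finsum g (hsup z hz) (fun g => hρ0 (mo g z))
    linarith
  have hRs : ∀ z : ℂ, 0 < z.im → ContDiffAt ℝ ∞ R z := by
    intro z hz
    obtain ⟨S, hS⟩ := hloc z hz
    have h1 : R =ᶠ[𝓝 z] fun w => ∑ g ∈ S, ρ (mo g w) := by
      filter_upwards [hS] with w hw
      rw [hR]
      simp only
      refine finsum_eq_sum_of_support_subset _ fun g hg => ?_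
      by_contra hcon
      exact hg (hw.2 g hcon)
    refine ContDiffAt.congr_of_eventuallyEq ?_ h1
    refine ContDiffAt.sum fun g _ => ?_
    exact hρ.contDiffAt.comp z (contDiffAt_mo_real g hz)
  have hRinv : ∀ (h : GG) (z : ℂ), R (mo h z) = R z := by
    intro h z
    rw [hR]
    simp only
    refine Eq.trans ?_ (finsum_comp_equiv (f := fun g : GG => ρ (mo g z)) (Equiv.mulRight h))
    apply finsum_congr
    intro g
    rw [← mo_mul]
    rfl
  have hχs : ∀ z, z ∉ tsupport ρ → ρ z / R z = 0 := by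
    intro z hz
    rw [image_eq_zero_of_notMem_tsupport hz, zero_div]
  have hts : tsupport (fun z => ρ z / R z) ⊆ tsupport ρ := by
    refine closure_minimal (fun z hz => ?_) (isClosed_tsupport ρ)
    by_contra hcon
    exact hz (hχs z hcon)
  refine ⟨fun z => ρ z / R z, ?_, hρc.of_isClosed_subset (isClosed_tsupport _) hts,
    hts.trans hρs, ?_, ?_, ?_⟩
  · rw [contDiff_iff_contDiffAt]
    intro z
    by_cases hz : z ∈ tsupport ρ
    · exact hρ.contDiffAt.div (hRs z (hρs hz)) (hRpos z (hρs hz)).ne'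
    · have h1 : (fun z => ρ z / R z) =ᶠ[𝓝 z] fun _ => 0 := by
        filter_upwards [(isClosed_tsupport ρ).isOpen_compl.mem_nhds hz] with w hw
        exact hχs w hw
      exact contDiffAt_const.congr_of_eventuallyEq h1
  · intro z
    by_cases hz : z ∈ tsupport ρ
    · exact div_nonneg (hρ0 z) (hRpos z (hρs hz)).le
    · exact (hχs z hz).ge
  · obtain ⟨g, hg⟩ := hρ1 Complex.I (by simp)
    refine ⟨mo g Complex.I, ?_⟩
    show ρ (mo g Complex.I) / R (mo g Complex.I) ≠ 0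
    rw [hg, hRinv]
    exact div_ne_zero one_ne_zero (hRpos Complex.I (by simp)).ne'
  · intro z hz
    simp only [hRinv, div_eq_mul_inv]
    rw [← finsum_mul]
    exact mul_inv_cancel₀ (hRpos z hz).ne'

end Pool.Agent.V7H49.Nef
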