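import Pool.Agent.V7H49.Nef.VFun

/-! The Kähler form, closedness of the forms, the class is nef. -/

set_option autoImplicit false

open Complex MeasureTheory Topology Set Filter UpperHalfPlane
open scoped Manifold ContDiff ComplexConjugate MatrixGroups

namespace Pool.Agent.V7H49.Nef

/-- `G` is a potential of `θ` near `p`. -/
def LocPot (θ : ℂ × ℂ → ℂ × ℂ → ℝ) (G : ℂ × ℂ → ℝ) (p : ℂ × ℂ) : Prop :=
  ∀ᶠ q in 𝓝 p, ContDiffAt ℝ ∞ G q ∧ ∀ v, levi G q v = θ q v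

/-- The Kähler form upstairs. -/
noncomputable def kap (p v : ℂ × ℂ) : ℝ := nN p v / 4

lemma kap_inv : Inv kap := by
  intro g p hp v
  unfold kap
  rw [nN_inv g p hp v]

lemma locPot_kap {p : ℂ × ℂ} (hp : p ∈ DD) :
    LocPot kap (fun q => (-1) * Real.log q.1.im + (-1) * Real.log q.2.im) p := by
  filter_upwards [isOpen_DD.mem_nhds hp] with q hq
  refine ⟨(contDiffAt_const.mul (contDiffAt_log1 hq)).add
    (contDiffAt_const.mul (contDiffAt_log2 hq)), fun v => ?_⟩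
  rw [levi_add (contDiffAt_const.mul (contDiffAt_log1 hq))
    (contDiffAt_const.mul (contDiffAt_log2 hq)), levi_const_mul (contDiffAt_log1 hq),
    levi_const_mul (contDiffAt_log2 hq), levi_log1 hq, levi_log2 hq]
  unfold kap nN
  ring

lemma locPot_alT {p : ℂ × ℂ} (hp : p ∈ DD) : ∃ G, LocPot alT G p := by
  obtain ⟨γ, hγ⟩ := local_one hp
  have hcM : ∀ q ∈ DD, ContDiffAt ℝ ∞ (Mo (1, γ)) q := fun q hq =>
    ((contDiffAt_Mo (1, γ) hq).restrict_scalars ℝ).of_le (by exact_mod_cast le_top)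
  have hcs : ∀ q ∈ DD, ContDiffAt ℝ ∞ (fun q => sf (Mo (1, γ) q)) q := fun q hq =>
    (contDiffAt_sf (Mo_mem _ _)).comp q (hcM q hq)
  rcases lt_or_ge (sf (Mo (1, γ) p)) 1 with h | h
  · refine ⟨fun q => 1 / 2 * Real.log q.1.im + (-1 / 2) * Real.log q.2.im, ?_⟩
    have h1 : ∀ᶠ q in 𝓝 p, sf (Mo (1, γ) q) < 1 :=
      (hcs p hp).continuousAt.eventually (Iio_mem_nhds h)
    filter_upwards [hγ, h1] with q hq h1
    have hqD := hq.1
    refine ⟨(contDiffAt_const.mul (contDiffAt_log1 hqD)).add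
      (contDiffAt_const.mul (contDiffAt_log2 hqD)), fun v => ?_⟩
    rw [levi_add (contDiffAt_const.mul (contDiffAt_log1 hqD))
      (contDiffAt_const.mul (contDiffAt_log2 hqD)), levi_const_mul (contDiffAt_log1 hqD),
      levi_const_mul (contDiffAt_log2 hqD), levi_log1 hqD, levi_log2 hqD, alT_local hq.2]
    unfold Lam
    rw [AA_one h1.le, deriv_AA_zero h1, nN_inv _ _ hqD]
    unfold bb nN
    ring
  · refine ⟨fun q => ((-1 / 2) * Real.log q.1.im + (-3 / 2) * Real.log q.2.im) -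
      FF 0 (sf (Mo (1, γ) q)), ?_⟩
    have h1 : ∀ᶠ q in 𝓝 p, 0 < sf (Mo (1, γ) q) :=
      (hcs p hp).continuousAt.eventually (Ioi_mem_nhds (by linarith))
    filter_upwards [hγ, h1] with q hq h1
    have hqD := hq.1
    have c1 : ContDiffAt ℝ ∞ (fun q : ℂ × ℂ => (-1 / 2) * Real.log q.1.im +
        (-3 / 2) * Real.log q.2.im) q :=
      (contDiffAt_const.mul (contDiffAt_log1 hqD)).add (contDiffAt_const.mul (contDiffAt_log2 hqD))
    have c0 : ContDiffAt ℝ ∞ (fun q => FF 0 (sf q)) (Mo (1, γ) q) :=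
      ContDiffAt.comp (g := FF 0) _ (contDiffAt_FF le_rfl (by simpa using h1))
        (contDiffAt_sf (Mo_mem _ _))
    have c2 : ContDiffAt ℝ ∞ (fun q => FF 0 (sf (Mo (1, γ) q))) q := c0.comp q (hcM q hqD)
    refine ⟨c1.sub c2, fun v => ?_⟩
    rw [levi_sub (c1.of_le two_le_infty) (c2.of_le two_le_infty),
      levi_add (contDiffAt_const.mul (contDiffAt_log1 hqD))
      (contDiffAt_const.mul (contDiffAt_log2 hqD)), levi_const_mul (contDiffAt_log1 hqD),
      levi_const_mul (contDiffAt_log2 hqD), levi_log1 hqD, levi_log2 hqD, alT_local hq.2,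
      levi_Mo (f := fun q => FF 0 (sf q)) (1, γ) hqD (c0.of_le two_le_infty),
      levi_FF le_rfl (Mo_mem _ _) (by simpa using h1)]
    unfold Lam bb
    have h2 := h1.ne'
    simp only [add_zero, mul_zero, zero_div, zero_add]
    field_simp

/-- A form with local potentials descends to a closed form. -/
lemma closed_of {θ : ℂ × ℂ → ℂ × ℂ → ℝ} (hθ : Inv θ) {x : XX} {G : ℂ × ℂ → ℝ}
    (h : LocPot θ G (rep x)) : ∃ W : Set (ℂ × ℂ), IsOpen W ∧ rep x ∈ W ∧
      (∀ q ∈ W, ContDiffAt ℝ ∞ G q ∧ ∀ v, levi G q v = θ q v) ∧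
      IsPotential (desc θ) (fun y => G (ch2 x y)) ((ch2 x).source ∩ ch2 x ⁻¹' W) := by
  obtain ⟨W, hW1, hW2, hW3⟩ := mem_nhds_iff.mp h
  exact ⟨W, hW2, hW3, fun q hq => hW1 hq, isPotential_of hθ (fun q hq => (hW1 hq).1)
    fun q hq => (hW1 hq).2⟩

lemma closedForm_of {θ : ℂ × ℂ → ℂ × ℂ → ℝ} (hθ : Inv θ) (h : ∀ p ∈ DD, ∃ G, LocPot θ G p) :
    IsClosedForm (desc θ) := by
  intro x
  obtain ⟨G, hG⟩ := h _ (rep_mem x)
  obtain ⟨W, hW1, hW2, -, hW3⟩ := closed_of hθ hG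
  refine ⟨(ch2 x).source ∩ ch2 x ⁻¹' W, (ch2 x).isOpen_inter_preimage hW1,
    ⟨mem_ch2_source x, ?_⟩, _, hW3⟩
  rw [mem_preimage, ch2_self]
  exact hW2

/-- The Kähler form of the surface. -/
noncomputable def kaX : Form XX := desc kap

/-- The form with nef and big class. -/
noncomputable def alX : Form XX := desc alT

lemma isKahler : IsKahlerForm kaX := by
  refine ⟨closedForm_of kap_inv fun p hp => ⟨_, locPot_kap hp⟩, fun x v hv => ?_⟩
  have := nN_pos (rep_mem x) (v := v) hv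
  show 0 < nN (rep x) v / 4
  linarith

lemma isClosed_alX : IsClosedForm alX := closedForm_of alT_inv fun _ hp => locPot_alT hp

lemma rep_Pz {p : ℂ × ℂ} (hp : p ∈ DD) : ∃ g : GG × GG, rep (Pz p) = Mo g p := by
  obtain ⟨g, hg⟩ := (Pz_eq_iff (rep_mem (Pz p)) hp).mp (Pz_rep (Pz p))
  exact ⟨g, hg.symm⟩

lemma VV_rep (ε : ℝ) {p : ℂ × ℂ} (hp : p ∈ DD) : VV ε (rep (Pz p)) = VV ε p := by
  obtain ⟨g, hg⟩ := rep_Pz hp
  rw [hg, VV_Mo ε g hp]

lemma isNef : IsNef kaX alX := by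
  intro ε hε
  have h1 : ∀ x : XX, (fun p => VV ε (rep (Pz p))) =ᶠ[𝓝 (rep x)] VV ε := by
    intro x
    filter_upwards [isOpen_DD.mem_nhds (rep_mem x)] with p hp
    exact VV_rep ε hp
  refine ⟨fun x => VV ε (rep x), fun x => ?_, fun x v => ?_⟩
  · exact contMDiffAt_iff_lift.mpr ((contDiffAt_VV hε (rep_mem x)).congr_of_eventuallyEq (h1 x))
  · rw [ddc_eq, levi_congr (h1 x)]
    obtain ⟨γ, hγ⟩ := local_one (rep_mem x)
    exact (lower hε hγ v).1

end Pool.Agent.V7H49.Nef
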