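import Pool.Agent.V7H49.Nef.SFun

/-! The cut-off logarithms. -/

set_option autoImplicit false

open Complex MeasureTheory Topology Set Filter
open scoped Manifold ContDiff ComplexConjugate

namespace Pool.Agent.V7H49.Nef

lemma two_le_infty : (2 : ℕ∞ω) ≤ ∞ := WithTop.coe_le_coe.mpr le_top

/-- The cut-off function: `1` on `(-∞, 1]`, `0` on `[2, ∞)`. -/
noncomputable def AA (s : ℝ) : ℝ := Real.smoothTransition (2 - s)

lemma contDiff_AA : ContDiff ℝ ∞ AA := by
  unfold AA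
  exact Real.smoothTransition.contDiff.comp (contDiff_const.sub contDiff_id)

lemma AA_nonneg (s : ℝ) : 0 ≤ AA s := Real.smoothTransition.nonneg _

lemma AA_le_one (s : ℝ) : AA s ≤ 1 := Real.smoothTransition.le_one _

lemma AA_one {s : ℝ} (h : s ≤ 1) : AA s = 1 := Real.smoothTransition.one_of_one_le (by linarith)

lemma AA_zero {s : ℝ} (h : 2 ≤ s) : AA s = 0 := Real.smoothTransition.zero_of_nonpos (by linarith)

lemma AA_antitone : Antitone AA := fun _ _ h => Real.smoothTransition.monotone (by linarith)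

lemma deriv_AA_nonpos (s : ℝ) : deriv AA s ≤ 0 := AA_antitone.deriv_nonpos

lemma deriv_AA_zero {s : ℝ} (h : s < 1) : deriv AA s = 0 := by
  have : AA =ᶠ[𝓝 s] fun _ => 1 := by
    filter_upwards [Iio_mem_nhds h] with t ht
    exact AA_one (le_of_lt ht)
  rw [this.deriv_eq]
  simp

lemma deriv_AA_zero' {s : ℝ} (h : 2 < s) : deriv AA s = 0 := by
  have : AA =ᶠ[𝓝 s] fun _ => 0 := by
    filter_upwards [Ioi_mem_nhds h] with t ht
    exact AA_zero (le_of_lt ht)
  rw [this.deriv_eq]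
  simp

/-- The regularised cut-off logarithm. -/
noncomputable def FF (ε s : ℝ) : ℝ := -∫ t in s..2, AA t / (t + ε)

lemma contOn (ε : ℝ) : ContinuousOn (fun t => AA t / (t + ε)) (Ioi (-ε)) := by
  refine contDiff_AA.continuous.continuousOn.div (by fun_prop) ?_
  intro t ht
  have : -ε < t := ht
  linarith

lemma intOn {ε s u : ℝ} (hs : -ε < s) (hu : -ε < u) :
    IntervalIntegrable (fun t => AA t / (t + ε)) volume s u := by
  refine ((contOn ε).mono ?_).intervalIntegrable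
  intro t ht
  rw [uIcc, mem_Icc] at ht
  exact lt_of_lt_of_le (lt_min hs hu) ht.1

lemma hasDerivAt_FF {ε s : ℝ} (hε : 0 ≤ ε) (hs : -ε < s) : HasDerivAt (FF ε) (AA s / (s + ε)) s := by
  have h1 : HasDerivAt (fun u => ∫ t in u..2, AA t / (t + ε)) (-(AA s / (s + ε))) s := by
    refine intervalIntegral.integral_hasDerivAt_left (intOn hs (by linarith)) ?_ ?_
    · exact (contOn ε).stronglyMeasurableAtFilter isOpen_Ioi _ hs
    · exact (contOn ε).continuousAt (Ioi_mem_nhds hs)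
  have := h1.neg
  rwa [neg_neg] at this

lemma contDiffOn_FF {ε : ℝ} (hε : 0 ≤ ε) : ContDiffOn ℝ ∞ (FF ε) (Ioi (-ε)) := by
  rw [contDiffOn_infty_iff_deriv_of_isOpen isOpen_Ioi]
  refine ⟨fun s hs => (hasDerivAt_FF hε hs).differentiableAt.differentiableWithinAt, ?_⟩
  have h1 : ContDiffOn ℝ ∞ (fun s => AA s / (s + ε)) (Ioi (-ε)) := by
    refine contDiff_AA.contDiffOn.div (by fun_prop) ?_
    intro t ht
    have : -ε < t := ht
    linarith
  refine h1.congr ?_
  intro s hs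
  exact (hasDerivAt_FF hε hs).deriv

lemma contDiffAt_FF {ε s : ℝ} (hε : 0 ≤ ε) (hs : -ε < s) : ContDiffAt ℝ ∞ (FF ε) s :=
  (contDiffOn_FF hε).contDiffAt (Ioi_mem_nhds hs)

lemma deriv_FF {ε s : ℝ} (hε : 0 ≤ ε) (hs : -ε < s) : deriv (FF ε) s = AA s / (s + ε) :=
  (hasDerivAt_FF hε hs).deriv

lemma deriv2_FF {ε s : ℝ} (hε : 0 ≤ ε) (hs : -ε < s) :
    deriv (deriv (FF ε)) s = (deriv AA s * (s + ε) - AA s) / (s + ε) ^ 2 := by
  have h1 : deriv (FF ε) =ᶠ[𝓝 s] fun s => AA s / (s + ε) := by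
    filter_upwards [Ioi_mem_nhds hs] with t ht
    exact deriv_FF hε ht
  rw [h1.deriv_eq]
  have h2 : HasDerivAt AA (deriv AA s) s :=
    (contDiff_AA.differentiable (by norm_num) s).hasDerivAt
  have h3 : HasDerivAt (fun s : ℝ => s + ε) 1 s := (hasDerivAt_id s).add_const ε
  have hne : s + ε ≠ 0 := by linarith
  have := (h2.div h3 hne).deriv
  rw [mul_one] at this
  exact this

/-- The complex Hessian of `FF ε ∘ sf`. -/
lemma levi_FF {ε : ℝ} (hε : 0 ≤ ε) {p : ℂ × ℂ} (hp : p ∈ DD) (hs : 0 < sf p + ε) (v : ℂ × ℂ) :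
    levi (fun q => FF ε (sf q)) p v = (sf p * AA (sf p) / (sf p + ε) * nN p v +
      (AA (sf p) * ε / (sf p + ε) ^ 2 + sf p * deriv AA (sf p) / (sf p + ε)) * qQ p v) / 4 := by
  have hs' : -ε < sf p := by linarith
  rw [levi_comp_real (contDiffAt_sf hp) ((contDiffAt_FF hε hs').of_le two_le_infty),
    deriv_FF hε hs', deriv2_FF hε hs', levi_sf hp, gsq_sf hp]
  field_simp
  ring

/-- The basic inequalities. -/
lemma key_ineq {a b N Q s ε A A' : ℝ} (ha : 0 ≤ a) (hb : 0 ≤ b) (hN : N = a ^ 2 + b ^ 2)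
    (hQ : (a - b) ^ 2 ≤ Q) (hs : 0 ≤ s) (hε : 0 < ε) (hA0 : 0 ≤ A) (hA1 : A ≤ 1) (hA' : A' ≤ 0) :
    - ε * N ≤ (1 / 2 * a ^ 2 + 3 / 2 * b ^ 2) - (A * N + A' * Q) +
      (s * A / (s + ε) * N + (A * ε / (s + ε) ^ 2 + s * A' / (s + ε)) * Q) ∧
    (1 / 2 - ε / (s + ε)) * N ≤ (1 / 2 * a ^ 2 + 3 / 2 * b ^ 2) - (A * N + A' * Q) +
      (s * A / (s + ε) * N + (A * ε / (s + ε) ^ 2 + s * A' / (s + ε)) * Q) := by
  have hse : 0 < s + ε := by linarith
  set m := ε / (s + ε) with hm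
  have hm0 : 0 < m := by positivity
  have hm1 : m ≤ 1 := by
    rw [hm, div_le_one hse]
    linarith
  have e1 : s * A / (s + ε) = (1 - m) * A := by
    rw [hm]
    field_simp
    ring
  have e2 : s * A' / (s + ε) = (1 - m) * A' := by
    rw [hm]
    field_simp
    ring
  have e3 : A * ε / (s + ε) ^ 2 = A * m ^ 2 / ε := by
    rw [hm]
    field_simp
  rw [e1, e2, e3]
  have hQ0 : 0 ≤ Q := le_trans (sq_nonneg _) hQ
  have e4 : (1 / 2 * a ^ 2 + 3 / 2 * b ^ 2) - (A * N + A' * Q) + ((1 - m) * A * N +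
      (A * m ^ 2 / ε + (1 - m) * A') * Q) = (1 - m * A) * N + 1 / 2 * (b ^ 2 - a ^ 2) +
      A * m ^ 2 / ε * Q + m * (-A') * Q := by
    rw [hN]
    ring
  rw [e4]
  have h1 : 0 ≤ m * (-A') * Q := by
    have : 0 ≤ -A' := by linarith
    positivity
  have h2 : 0 ≤ A * m ^ 2 / ε * Q := by positivity
  have hN0 : 0 ≤ N := by rw [hN]; positivity
  constructor
  · rcases le_or_gt (m * A) (1 / 2) with h | h
    · have h3 : 1 / 2 * N ≤ (1 - m * A) * N := mul_le_mul_of_nonneg_right (by linarith) hN0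
      have h4 : 0 ≤ ε * N := by positivity
      nlinarith [sq_nonneg a, sq_nonneg b]
    · have h3 : 1 / 4 ≤ A * m ^ 2 := by
        have h5 : m * A ≤ m := mul_le_of_le_one_right hm0.le hA1
        nlinarith
      have h4 : 1 / (4 * ε) * (a - b) ^ 2 ≤ A * m ^ 2 / ε * Q := by
        have h6 : 1 / (4 * ε) ≤ A * m ^ 2 / ε := by
          rw [div_le_div_iff₀ (by positivity) hε]
          nlinarith
        exact mul_le_mul h6 hQ (sq_nonneg _) (by positivity)
      have h5 : 0 ≤ (1 - m * A) * N := by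
        have : m * A ≤ 1 := mul_le_one₀ hm1 hA0 hA1
        have : 0 ≤ 1 - m * A := by linarith
        positivity
      have h6 : 0 ≤ 1 / (4 * ε) * ((a - b) - ε * (a + b)) ^ 2 := by positivity
      have h7 : 1 / (4 * ε) * ((a - b) - ε * (a + b)) ^ 2 = 1 / (4 * ε) * (a - b) ^ 2 -
          1 / 2 * (a ^ 2 - b ^ 2) + ε / 4 * (a + b) ^ 2 := by
        field_simp
        ring
      have h8 : ε / 4 * (a + b) ^ 2 ≤ ε * N := by
        rw [hN]
        nlinarith [mul_nonneg hε.le (sq_nonneg (a - b)), mul_nonneg hε.le (sq_nonneg a),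
          mul_nonneg hε.le (sq_nonneg b)]
      linarith
  · have h3 : (1 - m) * N ≤ (1 - m * A) * N := by
      refine mul_le_mul_of_nonneg_right ?_ hN0
      have : m * A ≤ m := mul_le_of_le_one_right hm0.le hA1
      linarith
    have h4 : 0 ≤ 1 / 2 * (b ^ 2 - a ^ 2) + 1 / 2 * N := by
      rw [hN]
      nlinarith [sq_nonneg b]
    linarith

end Pool.Agent.V7H49.Nef
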