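import Pool.Agent.H85R3.HSTopo
import Pool.Agent.V7H49.Nef.Prof

/-! The closed Riemann surface `B = ℍ / Γ` and the complex surface `B × B`. -/

set_option autoImplicit false

open Complex MeasureTheory Topology Set Filter UpperHalfPlane
open scoped Manifold ContDiff ComplexConjugate MatrixGroups

namespace Pool.Agent.V7H49.Nef

open Pool.Agent.H85R3.HS

noncomputable def lev : ℤ := (exists_level 20).choose

lemma lev_spec : Odd lev ∧ 0 < lev ∧ ∀ g ∈ cong lev, g ≠ 1 → ∀ z : ℍ,
    (20 : ℝ) ≤ dist z (g • z) := (exists_level 20).choose_spec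

/-- The group: a principal congruence subgroup of the norm one units of an order of the quaternion
algebra `(2, 3)` over `ℚ`, all of whose nontrivial elements move every point by at least `20`. -/
noncomputable def GG : Subgroup SL(2, ℝ) := cong lev

lemma movesFar : MovesFar GG 20 := lev_spec.2.2

lemma cocomp : ∃ K : Set ℍ, IsCompact K ∧ ∀ z : ℍ, ∃ g ∈ GG, g • z ∈ K := cocompact lev_spec.2.1

instance : DiscreteTopology GG := movesFar.discrete (by norm_num)

lemma gg_free {g : GG} {z : ℍ} (h : g • z = z) : g = 1 :=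
  Subtype.ext (movesFar.free (by norm_num) g.1 g.2 z h)

instance : IsCancelSMul GG ℍ where
  left_cancel' g x y h := (MulAction.injective g) h
  right_cancel' g h x hx := by
    have h1 : (h⁻¹ * g) • x = x := by
      rw [mul_smul, hx, inv_smul_smul]
    have := gg_free h1
    exact (inv_mul_eq_one.mp this).symm

/-- The closed Riemann surface `ℍ / Γ`. -/
noncomputable def BB : Type := MulAction.orbitRel.Quotient GG ℍ

noncomputable instance : TopologicalSpace BB :=
  inferInstanceAs (TopologicalSpace (MulAction.orbitRel.Quotient GG ℍ))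

/-- The projection. -/
noncomputable def pr : ℍ → BB := Quotient.mk (MulAction.orbitRel GG ℍ)

lemma pr_cov : IsQuotientCoveringMap pr GG :=
  isQuotientCoveringMap_quotientMk_of_properlyDiscontinuousSMul

instance : T2Space BB := inferInstanceAs (T2Space (Quotient (MulAction.orbitRel GG ℍ)))

lemma pr_smul (g : GG) (x : ℍ) : pr (g • x) = pr x := pr_cov.map_smul g

lemma pr_eq_iff {x y : ℍ} : pr x = pr y ↔ ∃ g : GG, g • y = x := by
  rw [pr_cov.apply_eq_iff_mem_orbit]; rfl

lemma continuous_pr : Continuous pr := pr_cov.continuous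

lemma surjective_pr : Function.Surjective pr := Quotient.mk_surjective

/-- `pr` is a local homeomorphism -/
lemma hl : IsLocalHomeomorph pr := pr_cov.isCoveringMap.isLocalHomeomorph

instance : CompactSpace BB := by
  obtain ⟨K, hK, h⟩ := cocomp
  refine ⟨?_⟩
  have : (univ : Set BB) = pr '' K := by
    symm
    rw [eq_univ_iff_forall]
    intro q
    obtain ⟨z, rfl⟩ := surjective_pr q
    obtain ⟨g, hg, hz⟩ := h z
    exact ⟨g • z, hz, pr_smul ⟨g, hg⟩ z⟩
  rw [this]
  exact hK.image continuous_pr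

instance : ConnectedSpace BB := by
  have : ConnectedSpace ℍ := inferInstance
  exact surjective_pr.connectedSpace continuous_pr

/-- A lift of a point. -/
noncomputable def sec (q : BB) : ℍ := (surjective_pr q).choose

@[simp] lemma pr_sec (q : BB) : pr (sec q) = q := (surjective_pr q).choose_spec

/-- The embedding of the upper half plane as a chart. -/
noncomputable def cH : OpenPartialHomeomorph ℍ ℂ := isOpenEmbedding_coe.toOpenPartialHomeomorph

lemma cH_apply (z : ℍ) : cH z = (z : ℂ) := rfl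

lemma cH_source : cH.source = univ := rfl

lemma cH_target : cH.target = {z : ℂ | 0 < z.im} := by
  unfold cH
  rw [IsOpenEmbedding.toOpenPartialHomeomorph_target]
  exact UpperHalfPlane.range_coe

lemma cH_symm {z : ℂ} (hz : 0 < z.im) : cH.symm z = ⟨z, hz⟩ := by
  have h := cH.left_inv (x := ⟨z, hz⟩) (by rw [cH_source]; trivial)
  rwa [cH_apply] at h

/-- The chart at `q`. -/
noncomputable def ch (q : BB) : OpenPartialHomeomorph BB ℂ := (hl.localInverseAt (sec q)).trans cH

/-- The projection as a function on `ℂ`. -/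
noncomputable def pz (z : ℂ) : BB := pr (ofComplex z)

lemma pz_coe (z : ℍ) : pz z = pr z := by
  unfold pz
  rw [ofComplex_apply]

lemma mem_ch_source (q : BB) : q ∈ (ch q).source := by
  unfold ch
  rw [OpenPartialHomeomorph.trans_source, cH_source, preimage_univ, inter_univ]
  have h := hl.apply_self_mem_localInverseAt_source (x := sec q)
  rwa [pr_sec] at h

lemma ch_self (q : BB) : ch q q = (sec q : ℂ) := by
  have h : hl.localInverseAt (sec q) q = sec q := by
    have h := hl.localInverseAt_apply_self (x := sec q)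
    rwa [pr_sec] at h
  show cH (hl.localInverseAt (sec q) q) = _
  rw [h, cH_apply]

lemma ch_target {q : BB} {z : ℂ} (hz : z ∈ (ch q).target) : 0 < z.im := by
  unfold ch at hz
  rw [OpenPartialHomeomorph.trans_target, cH_target] at hz
  exact hz.1

lemma ch_symm {q : BB} {z : ℂ} (hz : z ∈ (ch q).target) : (ch q).symm z = pz z := by
  have h1 := ch_target hz
  show (hl.localInverseAt (sec q)).symm (cH.symm z) = _
  rw [hl.localInverseAt_symm, cH_symm h1]
  unfold pz
  rw [ofComplex_apply_of_im_pos h1]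

lemma ch_pz {q : BB} {z : ℂ} (hz : z ∈ (ch q).target) : ch q (pz z) = z := by
  rw [← ch_symm hz]
  exact (ch q).right_inv hz

lemma pz_mem {q : BB} {z : ℂ} (hz : z ∈ (ch q).target) : pz z ∈ (ch q).source := by
  rw [← ch_symm hz]
  exact (ch q).map_target hz

/-- The action of the group on `ℂ` (meaningful on the upper half plane). -/
noncomputable def mo (g : GG) (z : ℂ) : ℂ := ((g • ofComplex z : ℍ) : ℂ)

lemma mo_coe (g : GG) (z : ℍ) : mo g z = ((g • z : ℍ) : ℂ) := by
  unfold mo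
  rw [ofComplex_apply]

lemma mo_im_pos (g : GG) (z : ℂ) : 0 < (mo g z).im := (g • ofComplex z : ℍ).im_pos

lemma pz_mo (g : GG) {z : ℂ} (_hz : 0 < z.im) : pz (mo g z) = pz z := by
  unfold mo
  rw [pz_coe, pr_smul]
  rfl

lemma pz_eq_iff {z w : ℂ} (hz : 0 < z.im) (_hw : 0 < w.im) : pz z = pz w ↔ ∃ g : GG, mo g w = z := by
  unfold pz mo
  rw [pr_eq_iff]
  constructor
  · rintro ⟨g, hg⟩
    refine ⟨g, ?_⟩
    rw [hg, ofComplex_apply_of_im_pos hz]
  · rintro ⟨g, hg⟩
    refine ⟨g, ?_⟩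
    rw [← hg, ofComplex_apply]

lemma mo_mul (g h : GG) (z : ℂ) : mo (g * h) z = mo g (mo h z) := by
  unfold mo
  rw [ofComplex_apply, mul_smul]

lemma mo_one {z : ℂ} (hz : 0 < z.im) : mo 1 z = z := by
  unfold mo
  rw [one_smul, ofComplex_apply_of_im_pos hz]

lemma isOpen_uh : IsOpen {z : ℂ | 0 < z.im} := isOpen_lt continuous_const Complex.continuous_im

/-- the denominator -/
noncomputable def dn (g : GG) (z : ℂ) : ℂ := (g.1 1 0 : ℝ) * z + (g.1 1 1 : ℝ)

lemma mo_eq (g : GG) {z : ℂ} (hz : 0 < z.im) :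
    mo g z = ((g.1 0 0 : ℝ) * z + (g.1 0 1 : ℝ)) / dn g z := by
  unfold mo dn
  rw [ofComplex_apply_of_im_pos hz]
  show ((g.1 • (⟨z, hz⟩ : ℍ) : ℍ) : ℂ) = _
  rw [UpperHalfPlane.coe_specialLinearGroup_apply]
  simp

lemma dn_ne (g : GG) {z : ℂ} (hz : 0 < z.im) : dn g z ≠ 0 := by
  intro h
  have h1 := congrArg Complex.im h
  have h2 := congrArg Complex.re h
  unfold dn at h1 h2
  simp only [add_im, im_ofReal_mul, ofReal_im, add_zero, zero_im, mul_eq_zero, add_re,
    re_ofReal_mul, ofReal_re, zero_re] at h1 h2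
  have h3 : g.1 1 0 = 0 := by
    rcases h1 with h1 | h1
    · exact h1
    · exact absurd h1 hz.ne'
  rw [h3, zero_mul, zero_add] at h2
  have hdet := g.1.2
  rw [Matrix.det_fin_two] at hdet
  have e1 : (g.1.1 1 0 : ℝ) = 0 := h3
  have e2 : (g.1.1 1 1 : ℝ) = 0 := h2
  rw [e1, e2] at hdet
  simp at hdet

lemma hasDerivAt_mo (g : GG) {z : ℂ} (hz : 0 < z.im) : HasDerivAt (mo g) (1 / dn g z ^ 2) z := by
  have h1 : mo g =ᶠ[𝓝 z] fun z => ((g.1 0 0 : ℝ) * z + (g.1 0 1 : ℝ)) / dn g z := by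
    filter_upwards [isOpen_uh.mem_nhds hz] with w hw
    exact mo_eq g hw
  have h2 : HasDerivAt (fun z : ℂ => ((g.1 0 0 : ℝ) : ℂ) * z + ((g.1 0 1 : ℝ) : ℂ))
      ((g.1 0 0 : ℝ) : ℂ) z := by
    simpa using ((hasDerivAt_id z).const_mul ((g.1 0 0 : ℝ) : ℂ)).add_const ((g.1 0 1 : ℝ) : ℂ)
  have h3 : HasDerivAt (fun z : ℂ => dn g z) ((g.1 1 0 : ℝ) : ℂ) z := by
    unfold dn
    simpa using ((hasDerivAt_id z).const_mul ((g.1 1 0 : ℝ) : ℂ)).add_const ((g.1 1 1 : ℝ) : ℂ)
  have h4 := (h2.div h3 (dn_ne g hz)).congr_of_eventuallyEq h1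
  refine h4.congr_deriv ?_
  congr 1
  have hdet := g.1.2
  rw [Matrix.det_fin_two] at hdet
  have hdet' : (((g.1 0 0 : ℝ) : ℂ)) * ((g.1 1 1 : ℝ) : ℂ) - ((g.1 0 1 : ℝ) : ℂ) * ((g.1 1 0 : ℝ) : ℂ) = 1 := by
    exact_mod_cast hdet
  unfold dn
  linear_combination hdet'

lemma contDiffAt_mo (g : GG) {z : ℂ} (hz : 0 < z.im) : ContDiffAt ℂ ω (mo g) z := by
  have h1 : mo g =ᶠ[𝓝 z] fun z => ((g.1 0 0 : ℝ) * z + (g.1 0 1 : ℝ)) / dn g z := by
    filter_upwards [isOpen_uh.mem_nhds hz] with w hw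
    exact mo_eq g hw
  refine ContDiffAt.congr_of_eventuallyEq ?_ h1
  have hd := dn_ne g hz
  unfold dn at hd ⊢
  refine ContDiffAt.div ?_ ?_ hd
  · fun_prop
  · fun_prop

lemma mo_im (g : GG) {z : ℂ} (hz : 0 < z.im) : (mo g z).im = z.im / normSq (dn g z) := by
  rw [mo_eq g hz, div_im]
  have hd : normSq (dn g z) ≠ 0 := by
    rw [Ne, normSq_eq_zero]
    exact dn_ne g hz
  have hdet := g.1.2
  rw [Matrix.det_fin_two] at hdet
  have hdet' : (g.1 0 0 : ℝ) * (g.1 1 1 : ℝ) - (g.1 0 1 : ℝ) * (g.1 1 0 : ℝ) = 1 := hdet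
  rw [div_sub_div_same]
  congr 1
  unfold dn
  simp only [add_re, add_im, re_ofReal_mul, im_ofReal_mul, ofReal_re, ofReal_im]
  linear_combination z.im * hdet'

/-- Transition maps are locally given by the action. -/
lemma transition {q : BB} {z : ℂ} {g : GG} (hz : 0 < z.im) (h : mo g z ∈ (ch q).target) :
    ∀ᶠ w in 𝓝 z, 0 < w.im ∧ mo g w ∈ (ch q).target ∧ pz w ∈ (ch q).source ∧ ch q (pz w) = mo g w := by
  have hc : ContinuousAt (mo g) z := (hasDerivAt_mo g hz).continuousAt
  filter_upwards [isOpen_uh.mem_nhds hz, hc.preimage_mem_nhds ((ch q).open_target.mem_nhds h)]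
    with w hw hw'
  have h2 : mo g w ∈ (ch q).target := hw'
  refine ⟨hw, h2, ?_, ?_⟩
  · rw [← pz_mo g hw]
    exact pz_mem h2
  · rw [← pz_mo g hw]
    exact ch_pz h2

/-- Existence of the group element. -/
lemma exists_mo {q : BB} {z : ℂ} (hz : 0 < z.im) (h : pz z ∈ (ch q).source) :
    ∃ g : GG, mo g z = ch q (pz z) ∧ mo g z ∈ (ch q).target := by
  have h1 := (ch q).map_source h
  have h2 : pz (ch q (pz z)) = pz z := by
    rw [← ch_symm h1]
    exact (ch q).left_inv h
  obtain ⟨g, hg⟩ := (pz_eq_iff (ch_target h1) hz).mp h2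
  exact ⟨g, hg, by rw [hg]; exact h1⟩

end Pool.Agent.V7H49.Nef
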