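import Pool.Agent.V7H49.Nef.Levi

/-! The function `|z - w|² / (4 Im z Im w)` and its complex Hessian. -/

set_option autoImplicit false

open Complex MeasureTheory Topology Set Filter
open scoped Manifold ContDiff ComplexConjugate

namespace Pool.Agent.V7H49.Nef

/-- The product of two upper half planes. -/
def DD : Set (ℂ × ℂ) := {p | 0 < p.1.im ∧ 0 < p.2.im}

lemma isOpen_DD : IsOpen DD := by
  apply IsOpen.inter
  · exact isOpen_lt continuous_const (Complex.continuous_im.comp continuous_fst)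
  · exact isOpen_lt continuous_const (Complex.continuous_im.comp continuous_snd)

/-- `sinh² (d / 2)` -/
noncomputable def sf (p : ℂ × ℂ) : ℝ := normSq (p.1 - p.2) / (4 * p.1.im * p.2.im)

lemma sf_nonneg {p : ℂ × ℂ} (hp : p ∈ DD) : 0 ≤ sf p := by
  have h1 := hp.1
  have h2 := hp.2
  unfold sf
  have := normSq_nonneg (p.1 - p.2)
  positivity

/-- twice two real variables -/
noncomputable def nN (p v : ℂ × ℂ) : ℝ := normSq v.1 / p.1.im ^ 2 + normSq v.2 / p.2.im ^ 2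

/-- the second form -/
noncomputable def qQ (p v : ℂ × ℂ) : ℝ :=
  normSq ((conj p.1 - p.2) * (v.1 / p.1.im) + (p.1 - conj p.2) * (v.2 / p.2.im)) /
    (4 * p.1.im * p.2.im)

lemma contDiff_im : ContDiff ℝ ω Complex.im := Complex.imCLM.contDiff

lemma contDiff_normSq {n : ℕ∞ω} : ContDiff ℝ n (fun z : ℂ => normSq z) := by
  have : (fun z : ℂ => normSq z) = fun z => Complex.reCLM z * Complex.reCLM z +
      Complex.imCLM z * Complex.imCLM z := by
    funext z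
    simp [normSq_apply]
  rw [this]
  fun_prop

lemma contDiffAt_sf {n : ℕ∞ω} {p : ℂ × ℂ} (hp : p ∈ DD) : ContDiffAt ℝ n sf p := by
  unfold sf
  have h1 : ContDiffAt ℝ n (fun p : ℂ × ℂ => normSq (p.1 - p.2)) p :=
    (contDiff_normSq.contDiffAt).comp p (by fun_prop)
  have h2 : ContDiffAt ℝ n (fun p : ℂ × ℂ => p.1.im) p :=
    (Complex.imCLM.contDiff.contDiffAt).comp p (by fun_prop)
  have h3 : ContDiffAt ℝ n (fun p : ℂ × ℂ => p.2.im) p :=
    (Complex.imCLM.contDiff.contDiffAt).comp p (by fun_prop)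
  refine h1.div ((contDiffAt_const.mul h2).mul h3) ?_
  have := hp.1
  have := hp.2
  positivity

lemma rat_line (x dx y dy y1 b1 y2 b2 : ℝ) (h1 : 0 < y1) (h2 : 0 < y2) :
    ∃ g : ℝ → ℝ, (∀ᶠ t : ℝ in 𝓝 0, HasDerivAt (fun t : ℝ =>
      ((x + t * dx) ^ 2 + (y + t * dy) ^ 2) / (4 * (y1 + t * b1) * (y2 + t * b2))) (g t) t) ∧
      g 0 = (2 * (x * dx + y * dy) - (x ^ 2 + y ^ 2) * (b1 / y1 + b2 / y2)) / (4 * y1 * y2) ∧
      HasDerivAt g ((2 * (dx ^ 2 + dy ^ 2) - 4 * (x * dx + y * dy) * (b1 / y1 + b2 / y2)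
        + 2 * (x ^ 2 + y ^ 2) * ((b1 / y1) ^ 2 + b1 / y1 * (b2 / y2) + (b2 / y2) ^ 2)) /
        (4 * y1 * y2)) 0 := by
  have hl : ∀ (c d t : ℝ), HasDerivAt (fun t : ℝ => c + t * d) d t := fun c d t => by
    simpa using ((hasDerivAt_id t).mul_const d).const_add c
  have hN : ∀ t : ℝ, HasDerivAt (fun t : ℝ => (x + t * dx) ^ 2 + (y + t * dy) ^ 2)
      (2 * (x + t * dx) * dx + 2 * (y + t * dy) * dy) t := fun t => by
    refine (((hl x dx t).pow 2).add ((hl y dy t).pow 2)).congr_deriv ?_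
    norm_num
  have hD : ∀ t : ℝ, HasDerivAt (fun t : ℝ => 4 * (y1 + t * b1) * (y2 + t * b2))
      (4 * b1 * (y2 + t * b2) + 4 * (y1 + t * b1) * b2) t := fun t => by
    exact ((hl y1 b1 t).const_mul 4).mul (hl y2 b2 t)
  have hN' : ∀ t : ℝ, HasDerivAt (fun t : ℝ => 2 * (x + t * dx) * dx + 2 * (y + t * dy) * dy)
      (2 * dx * dx + 2 * dy * dy) t := fun t => by
    exact (((hl x dx t).const_mul 2).mul_const dx).add (((hl y dy t).const_mul 2).mul_const dy)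
  have hD' : ∀ t : ℝ, HasDerivAt (fun t : ℝ => 4 * b1 * (y2 + t * b2) + 4 * (y1 + t * b1) * b2)
      (4 * b1 * b2 + 4 * b1 * b2) t := fun t => by
    exact ((hl y2 b2 t).const_mul (4 * b1)).add (((hl y1 b1 t).const_mul 4).mul_const b2)
  have hne : ∀ᶠ t : ℝ in 𝓝 0, 4 * (y1 + t * b1) * (y2 + t * b2) ≠ 0 := by
    have hc : ContinuousAt (fun t : ℝ => 4 * (y1 + t * b1) * (y2 + t * b2)) 0 :=
      (hD 0).continuousAt
    refine hc.eventually_ne ?_
    simp [h1.ne', h2.ne']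
  refine ⟨fun t => ((2 * (x + t * dx) * dx + 2 * (y + t * dy) * dy) *
      (4 * (y1 + t * b1) * (y2 + t * b2)) - ((x + t * dx) ^ 2 + (y + t * dy) ^ 2) *
      (4 * b1 * (y2 + t * b2) + 4 * (y1 + t * b1) * b2)) /
      (4 * (y1 + t * b1) * (y2 + t * b2)) ^ 2, ?_, ?_, ?_⟩
  · filter_upwards [hne] with t ht
    exact (hN t).div (hD t) ht
  · simp only [zero_mul, add_zero]
    field_simp
  · have h0 : 4 * (y1 + 0 * b1) * (y2 + 0 * b2) ≠ 0 := by simp [h1.ne', h2.ne']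
    have := (((hN' 0).mul (hD 0)).sub ((hN 0).mul (hD' 0))).div ((hD 0).pow 2) (pow_ne_zero 2 h0)
    refine this.congr_deriv ?_
    simp only [Pi.mul_apply, Pi.sub_apply, Pi.pow_apply, zero_mul, add_zero, Nat.cast_ofNat,
      Nat.add_one_sub_one, pow_one]
    field_simp
    ring

lemma sf_line (p v : ℂ × ℂ) (t : ℝ) : sf (p + t • v) =
    (((p.1.re - p.2.re) + t * (v.1.re - v.2.re)) ^ 2 +
      ((p.1.im - p.2.im) + t * (v.1.im - v.2.im)) ^ 2) /
      (4 * (p.1.im + t * v.1.im) * (p.2.im + t * v.2.im)) := by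
  unfold sf
  simp only [normSq_apply, Prod.fst_add, Prod.snd_add, Prod.smul_fst, Prod.smul_snd, sub_re,
    add_re, sub_im, add_im, real_smul, re_ofReal_mul, im_ofReal_mul]
  congr 1
  ring

lemma sf_snd {p : ℂ × ℂ} (hp : p ∈ DD) (v : ℂ × ℂ) :
    fderiv ℝ sf p v = (2 * ((p.1.re - p.2.re) * (v.1.re - v.2.re) +
      (p.1.im - p.2.im) * (v.1.im - v.2.im)) - ((p.1.re - p.2.re) ^ 2 + (p.1.im - p.2.im) ^ 2) *
      (v.1.im / p.1.im + v.2.im / p.2.im)) / (4 * p.1.im * p.2.im) ∧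
    fderiv ℝ (fderiv ℝ sf) p v v = (2 * ((v.1.re - v.2.re) ^ 2 + (v.1.im - v.2.im) ^ 2) -
      4 * ((p.1.re - p.2.re) * (v.1.re - v.2.re) + (p.1.im - p.2.im) * (v.1.im - v.2.im)) *
      (v.1.im / p.1.im + v.2.im / p.2.im) +
      2 * ((p.1.re - p.2.re) ^ 2 + (p.1.im - p.2.im) ^ 2) * ((v.1.im / p.1.im) ^ 2 +
        v.1.im / p.1.im * (v.2.im / p.2.im) + (v.2.im / p.2.im) ^ 2)) / (4 * p.1.im * p.2.im) := by
  obtain ⟨g, hg1, hg2, hg3⟩ := rat_line (p.1.re - p.2.re) (v.1.re - v.2.re) (p.1.im - p.2.im)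
    (v.1.im - v.2.im) p.1.im v.1.im p.2.im v.2.im hp.1 hp.2
  have h1 : ∀ᶠ t : ℝ in 𝓝 0, HasDerivAt (fun t : ℝ => sf (p + t • v)) (g t) t := by
    filter_upwards [hg1] with t ht
    refine ht.congr_of_eventuallyEq (Eventually.of_forall fun t => ?_)
    exact sf_line p v t
  refine ⟨?_, snd_of_line (contDiffAt_sf hp) h1 hg3⟩
  rw [← hg2]
  have h2 := h1.self_of_nhds
  have hl : HasDerivAt (fun t : ℝ => p + t • v) v 0 := by
    simpa using ((hasDerivAt_id (0 : ℝ)).smul_const v).const_add p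
  have h3 : HasFDerivAt sf (fderiv ℝ sf p) (p + (0 : ℝ) • v) := by
    rw [zero_smul, add_zero]
    exact ((contDiffAt_sf (n := 2) hp).differentiableAt (by norm_num)).hasFDerivAt
  have h4 : HasDerivAt (sf ∘ fun t : ℝ => p + t • v) (fderiv ℝ sf p v) 0 :=
    HasFDerivAt.comp_hasDerivAt (l := sf) (0 : ℝ) h3 hl
  exact h4.unique h2

/-- The complex Hessian of `sf`. -/
lemma levi_sf {p : ℂ × ℂ} (hp : p ∈ DD) (v : ℂ × ℂ) :
    levi sf p v = (sf p * nN p v + qQ p v) / 4 := by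
  unfold levi
  rw [(sf_snd hp v).2, (sf_snd hp (I • v)).2]
  have h1 := hp.1.ne'
  have h2 := hp.2.ne'
  obtain ⟨⟨x1, y1⟩, ⟨x2, y2⟩⟩ := p
  obtain ⟨⟨a1, b1⟩, ⟨a2, b2⟩⟩ := v
  unfold sf nN qQ
  simp only at h1 h2
  simp only [Prod.smul_fst, Prod.smul_snd, smul_eq_mul, mul_re, mul_im, I_re, I_im, normSq_apply,
    sub_re, sub_im, add_re, add_im, conj_re, conj_im, div_ofReal_re, div_ofReal_im]
  field_simp
  ring

lemma gsq_sf {p : ℂ × ℂ} (hp : p ∈ DD) (v : ℂ × ℂ) : gsq sf p v = sf p * qQ p v / 4 := by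
  unfold gsq
  rw [(sf_snd hp v).1, (sf_snd hp (I • v)).1]
  have h1 := hp.1.ne'
  have h2 := hp.2.ne'
  obtain ⟨⟨x1, y1⟩, ⟨x2, y2⟩⟩ := p
  obtain ⟨⟨a1, b1⟩, ⟨a2, b2⟩⟩ := v
  unfold sf qQ
  simp only at h1 h2
  simp only [Prod.smul_fst, Prod.smul_snd, smul_eq_mul, mul_re, mul_im, I_re, I_im, normSq_apply,
    sub_re, sub_im, add_re, add_im, conj_re, conj_im, div_ofReal_re, div_ofReal_im]
  field_simp
  ring

lemma log_line (y b : ℝ) (hy : 0 < y) :
    (∀ᶠ t : ℝ in 𝓝 0, HasDerivAt (fun t : ℝ => Real.log (y + t * b)) (b / (y + t * b)) t) ∧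
      HasDerivAt (fun t : ℝ => b / (y + t * b)) (-(b ^ 2 / y ^ 2)) 0 := by
  have hl : ∀ t : ℝ, HasDerivAt (fun t : ℝ => y + t * b) b t := fun t => by
    simpa using ((hasDerivAt_id t).mul_const b).const_add y
  have hne : ∀ᶠ t : ℝ in 𝓝 0, y + t * b ≠ 0 := by
    refine (hl 0).continuousAt.eventually_ne ?_
    simp [hy.ne']
  constructor
  · filter_upwards [hne] with t ht
    exact (hl t).log ht
  · have := (hasDerivAt_const (0 : ℝ) b).div (hl 0) (by simp [hy.ne'])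
    refine this.congr_deriv ?_
    simp only [zero_mul, add_zero, zero_sub]
    ring

lemma contDiffAt_log1 {n : ℕ∞ω} {p : ℂ × ℂ} (hp : p ∈ DD) :
    ContDiffAt ℝ n (fun p : ℂ × ℂ => Real.log p.1.im) p :=
  ((Complex.imCLM.contDiff.contDiffAt).comp p (by fun_prop) :
    ContDiffAt ℝ n (fun p : ℂ × ℂ => p.1.im) p).log hp.1.ne'

lemma contDiffAt_log2 {n : ℕ∞ω} {p : ℂ × ℂ} (hp : p ∈ DD) :
    ContDiffAt ℝ n (fun p : ℂ × ℂ => Real.log p.2.im) p :=
  ((Complex.imCLM.contDiff.contDiffAt).comp p (by fun_prop) :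
    ContDiffAt ℝ n (fun p : ℂ × ℂ => p.2.im) p).log hp.2.ne'

lemma levi_log1 {p : ℂ × ℂ} (hp : p ∈ DD) (v : ℂ × ℂ) :
    levi (fun p : ℂ × ℂ => Real.log p.1.im) p v = -(normSq v.1 / p.1.im ^ 2) / 4 := by
  have key : ∀ v : ℂ × ℂ, fderiv ℝ (fderiv ℝ (fun p : ℂ × ℂ => Real.log p.1.im)) p v v =
      -(v.1.im ^ 2 / p.1.im ^ 2) := by
    intro v
    obtain ⟨h1, h2⟩ := log_line p.1.im v.1.im hp.1
    refine snd_of_line (contDiffAt_log1 hp) ?_ h2
    filter_upwards [h1] with t ht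
    refine ht.congr_of_eventuallyEq (Eventually.of_forall fun t => ?_)
    simp [Prod.fst_add, add_im]
  unfold levi
  rw [key, key]
  simp only [Prod.smul_fst, smul_eq_mul, mul_im, I_re, I_im, normSq_apply]
  ring

lemma levi_log2 {p : ℂ × ℂ} (hp : p ∈ DD) (v : ℂ × ℂ) :
    levi (fun p : ℂ × ℂ => Real.log p.2.im) p v = -(normSq v.2 / p.2.im ^ 2) / 4 := by
  have key : ∀ v : ℂ × ℂ, fderiv ℝ (fderiv ℝ (fun p : ℂ × ℂ => Real.log p.2.im)) p v v =
      -(v.2.im ^ 2 / p.2.im ^ 2) := by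
    intro v
    obtain ⟨h1, h2⟩ := log_line p.2.im v.2.im hp.2
    refine snd_of_line (contDiffAt_log2 hp) ?_ h2
    filter_upwards [h1] with t ht
    refine ht.congr_of_eventuallyEq (Eventually.of_forall fun t => ?_)
    simp [Prod.snd_add, add_im]
  unfold levi
  rw [key, key]
  simp only [Prod.smul_snd, smul_eq_mul, mul_im, I_re, I_im, normSq_apply]
  ring

lemma nN_nonneg (p v : ℂ × ℂ) : 0 ≤ nN p v := by
  unfold nN
  have := normSq_nonneg v.1
  have := normSq_nonneg v.2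
  positivity

lemma nN_pos {p : ℂ × ℂ} (hp : p ∈ DD) {v : ℂ × ℂ} (hv : v ≠ 0) : 0 < nN p v := by
  unfold nN
  have h1 := hp.1
  have h2 := hp.2
  have h3 := normSq_nonneg v.1
  have h4 := normSq_nonneg v.2
  by_cases h : v.1 = 0
  · have h5 : v.2 ≠ 0 := fun h' => hv (Prod.ext h h')
    have := normSq_pos.mpr h5
    positivity
  · have := normSq_pos.mpr h
    positivity

lemma qQ_nonneg {p : ℂ × ℂ} (hp : p ∈ DD) (v : ℂ × ℂ) : 0 ≤ qQ p v := by
  unfold qQ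
  have h1 := hp.1
  have h2 := hp.2
  have := normSq_nonneg ((conj p.1 - p.2) * (v.1 / p.1.im) + (p.1 - conj p.2) * (v.2 / p.2.im))
  positivity

/-- The second form bounds the squared difference of the norms. -/
lemma qQ_ge {p : ℂ × ℂ} (hp : p ∈ DD) (v : ℂ × ℂ) :
    (‖v.1‖ / p.1.im - ‖v.2‖ / p.2.im) ^ 2 ≤ qQ p v := by
  have h1 := hp.1
  have h2 := hp.2
  set r := ‖conj p.1 - p.2‖ with hr
  have hr' : ‖p.1 - conj p.2‖ = r := by
    rw [hr, ← Complex.norm_conj (p.1 - conj p.2)]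
    simp
  have hr2 : 4 * p.1.im * p.2.im ≤ r ^ 2 := by
    rw [hr, ← normSq_eq_norm_sq, normSq_apply]
    simp only [sub_re, sub_im, conj_re, conj_im]
    nlinarith [mul_self_nonneg (p.1.re - p.2.re), mul_self_nonneg (p.1.im - p.2.im)]
  have h3 : |r * (‖v.1‖ / p.1.im) - r * (‖v.2‖ / p.2.im)| ≤
      ‖(conj p.1 - p.2) * (v.1 / p.1.im) + (p.1 - conj p.2) * (v.2 / p.2.im)‖ := by
    have h4 := abs_norm_sub_norm_le ((conj p.1 - p.2) * (v.1 / p.1.im))
      (-((p.1 - conj p.2) * (v.2 / p.2.im)))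
    rw [norm_neg, sub_neg_eq_add, norm_mul, norm_mul, hr', norm_div, norm_div, Complex.norm_real,
      Complex.norm_real, Real.norm_of_nonneg h1.le, Real.norm_of_nonneg h2.le] at h4
    exact h4
  have h5 := pow_le_pow_left₀ (abs_nonneg _) h3 2
  rw [sq_abs, ← mul_sub, mul_pow] at h5
  unfold qQ
  rw [normSq_eq_norm_sq, le_div_iff₀ (by positivity)]
  calc _ ≤ (‖v.1‖ / p.1.im - ‖v.2‖ / p.2.im) ^ 2 * r ^ 2 :=
        mul_le_mul_of_nonneg_left hr2 (sq_nonneg _)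
    _ ≤ _ := by rw [mul_comm]; exact h5

end Pool.Agent.V7H49.Nef
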