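import Pool.Agent.V7H49.Nef.Unfold

/-! The theorem of Stokes on the quotient. -/

set_option autoImplicit false

open Complex MeasureTheory Topology Set Filter
open scoped Manifold ContDiff ComplexConjugate MatrixGroups

namespace Pool.Agent.V7H49.Nef

lemma int_contC {F g : ℂ → ℝ} (hF : ∀ x ∈ tsupport g, ContinuousAt F x) (hg : Continuous g)
    (hc : HasCompactSupport g) : Continuous (fun x => F x * g x) ∧
      Integrable (fun x => F x * g x) := by
  have h1 : Continuous (fun x => F x * g x) := by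
    refine continuous_of_tsupport fun x hx => ?_
    have hx' : x ∈ tsupport g := tsupport_mul_subset_right hx
    exact (hF x hx').mul hg.continuousAt
  exact ⟨h1, h1.integrable_of_hasCompactSupport (hc.mul_left)⟩

/-- The pairing of covectors. -/
noncomputable def prg (α β : ℂ →L[ℝ] ℝ) : ℝ := α 1 * β 1 + α I * β I

lemma lin_apply (α : ℂ →L[ℝ] ℝ) (c : ℂ) : α c = c.re * α 1 + c.im * α I := by
  have h1 : c = c.re • (1 : ℂ) + c.im • I := by
    apply Complex.ext
    · simp
    · simp
  conv_lhs => rw [h1]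
  rw [map_add, map_smul, map_smul, smul_eq_mul, smul_eq_mul]

lemma prg_conf (α β : ℂ →L[ℝ] ℝ) (c : ℂ) :
    α c * β c + α (I * c) * β (I * c) = normSq c * prg α β := by
  unfold prg
  rw [lin_apply α c, lin_apply β c, lin_apply α (I * c), lin_apply β (I * c)]
  simp only [mul_re, mul_im, I_re, I_im, normSq_apply]
  ring

lemma fderiv_support {χ : ℂ → ℝ} (v : ℂ) : tsupport (fun z => fderiv ℝ χ z v) ⊆ tsupport χ := by
  refine closure_minimal ?_ (isClosed_tsupport χ)
  intro y hy
  by_contra hcon
  apply hy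
  have h0 : χ =ᶠ[𝓝 y] fun _ => 0 := notMem_tsupport_iff_eventuallyEq.mp hcon
  show fderiv ℝ χ y v = 0
  rw [h0.fderiv_eq]
  simp

lemma fderiv_comp_mo {χ : ℂ → ℝ} (hχ : ContDiff ℝ ∞ χ) (g : GG) {z : ℂ} (hz : 0 < z.im) (h : ℂ) :
    fderiv ℝ (fun w => χ (mo g w)) z h = fderiv ℝ χ (mo g z) (h * (1 / dn g z ^ 2)) := by
  have h1 : HasFDerivAt (mo g) _ z := (hasDerivAt_mo g hz).hasFDerivAt.restrictScalars ℝ
  have h2 : HasFDerivAt χ (fderiv ℝ χ (mo g z)) (mo g z) :=
    (hχ.differentiable (by simp) _).hasFDerivAt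
  have h3 := (h2.comp z h1).fderiv
  have h4 : fderiv ℝ (fun w => χ (mo g w)) z = fderiv ℝ (χ ∘ mo g) z := rfl
  rw [h4, h3]
  simp

/-- The theorem of Stokes. -/
theorem stokes {χ : ℂ → ℝ} (hχ : ContDiff ℝ ∞ χ) (hc : HasCompactSupport χ)
    (hs : tsupport χ ⊆ {z : ℂ | 0 < z.im}) (h1 : ∀ z : ℂ, 0 < z.im → ∑ᶠ g : GG, χ (mo g z) = 1)
    {lam : ℂ → ℂ →L[ℝ] ℝ} (hlam : ∀ z : ℂ, 0 < z.im → ContDiffAt ℝ 1 lam z)
    (hinv : ∀ (g : GG) (z : ℂ), 0 < z.im → ∀ h, lam (mo g z) (h * (1 / dn g z ^ 2)) = lam z h) :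
    ∫ z, χ z * (fderiv ℝ lam z 1 1 + fderiv ℝ lam z I I) = 0 := by
  have hχ1 : ∀ v, Continuous (fun z => fderiv ℝ χ z v) := fun v =>
    (hχ.continuous_fderiv (by simp)).clm_apply continuous_const
  have hcs : ∀ v, HasCompactSupport (fun z => fderiv ℝ χ z v) := fun v =>
    hc.of_isClosed_subset (isClosed_tsupport _) (fderiv_support v)
  have hlc : ∀ z : ℂ, 0 < z.im → ∀ v, ContinuousAt (fun z => lam z v) z := fun z hz v =>
    (hlam z hz).continuousAt.clm_apply continuousAt_const
  have hld : ∀ z : ℂ, 0 < z.im → ∀ v, DifferentiableAt ℝ (fun z => lam z v) z := fun z hz v =>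
    ((hlam z hz).differentiableAt (by simp)).clm_apply (differentiableAt_const v)
  have hlfd : ∀ z : ℂ, 0 < z.im → ∀ v, fderiv ℝ (fun z => lam z v) z v = fderiv ℝ lam z v v := by
    intro z hz v
    have h := (((hlam z hz).differentiableAt (by simp)).hasFDerivAt.clm_apply
      (hasFDerivAt_const v z)).fderiv
    rw [h]
    simp
  have hldc : ∀ z : ℂ, 0 < z.im → ∀ v, ContinuousAt (fun z => fderiv ℝ lam z v v) z := by
    intro z hz v
    have h := ((hlam z hz).fderiv_right (m := 0) (by norm_num)).continuousAt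
    exact (h.clm_apply continuousAt_const).clm_apply continuousAt_const
  have i1 : ∀ v, Integrable (fun z => lam z v * fderiv ℝ χ z v) := fun v =>
    (int_contC (F := fun z => lam z v) (fun z hz => hlc z (hs (fderiv_support v hz)) v) (hχ1 v)
      (hcs v)).2
  have i2 : ∀ v, Integrable (fun z => fderiv ℝ lam z v v * χ z) := fun v =>
    (int_contC (F := fun z => fderiv ℝ lam z v v) (fun z hz => hldc z (hs hz) v) hχ.continuous
      hc).2
  have e1 : ∀ v, ∫ z, lam z v * fderiv ℝ χ z v = - ∫ z, fderiv ℝ lam z v v * χ z := by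
    intro v
    have e2 : ∫ z, lam z v * fderiv ℝ χ z v = - ∫ z, fderiv ℝ (fun z => lam z v) z v * χ z := by
      refine integral_mul_fderiv_eq_neg_fderiv_mul_of_integrable (f := fun z => lam z v) (g := χ)
        ?_ (i1 v) ?_ ?_ ?_
      · refine (i2 v).congr (ae_of_all _ fun z => ?_)
        by_cases hz : z ∈ tsupport χ
        · simp only
          rw [hlfd z (hs hz)]
        · simp [image_eq_zero_of_notMem_tsupport hz]
      · exact (int_contC (F := fun z => lam z v) (fun z hz => hlc z (hs hz) v) hχ.continuous hc).2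
      · intro x hx
        exact hld x (hs hx) v
      · intro x hx
        exact hχ.differentiable (by simp) x
    rw [e2]
    congr 1
    refine integral_congr_ae (ae_of_all _ fun z => ?_)
    by_cases hz : z ∈ tsupport χ
    · simp only
      rw [hlfd z (hs hz)]
    · simp [image_eq_zero_of_notMem_tsupport hz]
  -- the pairing
  set P : ℂ → ℝ := fun z => lam z 1 * fderiv ℝ χ z 1 + lam z I * fderiv ℝ χ z I with hP
  have hP0 : ∀ z, z ∉ tsupport χ → P z = 0 := by
    intro z hz
    have h0 : χ =ᶠ[𝓝 z] fun _ => 0 := notMem_tsupport_iff_eventuallyEq.mp hz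
    rw [hP]
    simp only
    rw [h0.fderiv_eq]
    simp
  have hPc : Continuous P :=
    (int_contC (F := fun z => lam z 1) (fun z hz => hlc z (hs (fderiv_support 1 hz)) 1) (hχ1 1)
      (hcs 1)).1.add (int_contC (F := fun z => lam z I)
      (fun z hz => hlc z (hs (fderiv_support I hz)) I) (hχ1 I) (hcs I)).1
  have hkey : ∫ z, P z = 0 := by
    have hts : tsupport (fun z => z.im ^ 2 * P z) ⊆ tsupport χ := by
      refine closure_minimal (fun z hz => ?_) (isClosed_tsupport χ)
      by_contra hcon
      apply hz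
      show z.im ^ 2 * P z = 0
      rw [hP0 z hcon, mul_zero]
    have hu := unfold_C (G := fun z => z.im ^ 2 * P z) ((Complex.continuous_im.pow 2).mul hPc)
      (hc.of_isClosed_subset (isClosed_tsupport _) hts) (hts.trans hs) ?_
    · rw [← hu]
      refine integral_congr_ae (ae_of_all _ fun z => ?_)
      simp only
      by_cases hz : z ∈ tsupport χ
      · have hz0 : z.im ≠ 0 := (hs hz).ne'
        field_simp
      · rw [hP0 z hz]
        simp
    · intro z hz
      obtain ⟨S, hS⟩ := loc_fin hc hs hz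
      have hterm : ∀ g : GG, (mo g z).im ^ 2 * P (mo g z) =
          z.im ^ 2 * prg (fderiv ℝ (fun w => χ (mo g w)) z) (lam z) := by
        intro g
        have hd := dn_ne g hz
        have hn : normSq (dn g z) ≠ 0 := by rwa [Ne, normSq_eq_zero]
        have h2 : prg (fderiv ℝ (fun w => χ (mo g w)) z) (lam z) =
            normSq (1 / dn g z ^ 2) * prg (fderiv ℝ χ (mo g z)) (lam (mo g z)) := by
          rw [← prg_conf]
          unfold prg
          rw [fderiv_comp_mo hχ g hz, fderiv_comp_mo hχ g hz, ← hinv g z hz 1, ← hinv g z hz I,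
            one_mul]
        rw [h2, mo_im g hz, hP]
        unfold prg
        simp only [normSq_div, map_one, map_pow]
        field_simp
      have hz0 : ∀ g : GG, g ∉ S → (mo g z).im ^ 2 * P (mo g z) = 0 := by
        intro g hg
        rw [hP0 _ (hS.self_of_nhds.2 g hg), mul_zero]
      rw [finsum_eq_sum_of_support_subset (s := S) _ (fun g hg => by
        by_contra hcon
        exact hg (hz0 g hcon))]
      have h3 : ∑ g ∈ S, (mo g z).im ^ 2 * P (mo g z) =
          z.im ^ 2 * prg (∑ g ∈ S, fderiv ℝ (fun w => χ (mo g w)) z) (lam z) := by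
        unfold prg
        simp only [_root_.sum_apply]
        rw [Finset.sum_mul, Finset.sum_mul, ← Finset.sum_add_distrib, Finset.mul_sum]
        refine Finset.sum_congr rfl fun g _ => ?_
        rw [hterm g]
        rfl
      have h4 : ∑ g ∈ S, fderiv ℝ (fun w => χ (mo g w)) z = 0 := by
        have h5 : (fun w => ∑ g ∈ S, χ (mo g w)) =ᶠ[𝓝 z] fun _ => 1 := by
          filter_upwards [hS] with w hw
          rw [← h1 w hw.1]
          symm
          refine finsum_eq_sum_of_support_subset _ fun g hg => ?_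
          by_contra hcon
          exact hg (image_eq_zero_of_notMem_tsupport (hw.2 g hcon))
        have h6 : fderiv ℝ (fun w => ∑ g ∈ S, χ (mo g w)) z =
            ∑ g ∈ S, fderiv ℝ (fun w => χ (mo g w)) z := by
          refine fderiv_fun_sum fun g _ => ?_
          exact (hχ.differentiable (by simp) _).comp z
            ((contDiffAt_mo_real g hz).differentiableAt (by simp))
        rw [← h6, h5.fderiv_eq]
        simp
      rw [h3, h4]
      unfold prg
      simp
  have e3 : ∫ z, χ z * (fderiv ℝ lam z 1 1 + fderiv ℝ lam z I I) = - ∫ z, P z := by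
    have e4 : (fun z => χ z * (fderiv ℝ lam z 1 1 + fderiv ℝ lam z I I)) =
        fun z => fderiv ℝ lam z 1 1 * χ z + fderiv ℝ lam z I I * χ z := by
      funext z
      ring
    rw [e4, integral_add (i2 1) (i2 I), hP, integral_add (i1 1) (i1 I), e1, e1]
    ring
  rw [e3, hkey, neg_zero]

end Pool.Agent.V7H49.Nef
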