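import Pool.Agent.V7H49.Nef.Quot

/-! The complex surface `B × B`. -/

set_option autoImplicit false

open Complex MeasureTheory Topology Set Filter UpperHalfPlane
open scoped Manifold ContDiff ComplexConjugate MatrixGroups

namespace Pool.Agent.V7H49.Nef

/-- The surface. -/
def XX : Type := BB × BB

noncomputable instance : TopologicalSpace XX := inferInstanceAs (TopologicalSpace (BB × BB))

instance : T2Space XX := inferInstanceAs (T2Space (BB × BB))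

instance : CompactSpace XX := inferInstanceAs (CompactSpace (BB × BB))

instance : ConnectedSpace XX := inferInstanceAs (ConnectedSpace (BB × BB))

/-- The charts of the surface. -/
noncomputable def ch2 (x : XX) : OpenPartialHomeomorph XX (ℂ × ℂ) := (ch x.1).prod (ch x.2)

noncomputable instance : ChartedSpace (ℂ × ℂ) XX where
  atlas := range ch2
  chartAt := ch2
  mem_chart_source x := ⟨mem_ch_source x.1, mem_ch_source x.2⟩
  chart_mem_atlas x := mem_range_self x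

lemma chartAt_eq (x : XX) : chartAt (ℂ × ℂ) x = ch2 x := rfl

/-- The projection. -/
noncomputable def Pz (p : ℂ × ℂ) : XX := (pz p.1, pz p.2)

/-- The action. -/
noncomputable def Mo (g : GG × GG) (p : ℂ × ℂ) : ℂ × ℂ := (mo g.1 p.1, mo g.2 p.2)

/-- The chosen lift. -/
noncomputable def rep (x : XX) : ℂ × ℂ := ((sec x.1 : ℂ), (sec x.2 : ℂ))

lemma rep_mem (x : XX) : rep x ∈ DD := ⟨(sec x.1).im_pos, (sec x.2).im_pos⟩

lemma mem_ch2_source (x : XX) : x ∈ (ch2 x).source := ⟨mem_ch_source x.1, mem_ch_source x.2⟩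

lemma ch2_self (x : XX) : ch2 x x = rep x := Prod.ext (ch_self x.1) (ch_self x.2)

lemma rep_mem_target (x : XX) : rep x ∈ (ch2 x).target := by
  rw [← ch2_self]
  exact (ch2 x).map_source (mem_ch2_source x)

lemma ch2_target {x : XX} {p : ℂ × ℂ} (hp : p ∈ (ch2 x).target) : p ∈ DD :=
  ⟨ch_target hp.1, ch_target hp.2⟩

lemma ch2_symm {x : XX} {p : ℂ × ℂ} (hp : p ∈ (ch2 x).target) : (ch2 x).symm p = Pz p :=
  Prod.ext (ch_symm hp.1) (ch_symm hp.2)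

lemma ch2_Pz {x : XX} {p : ℂ × ℂ} (hp : p ∈ (ch2 x).target) : ch2 x (Pz p) = p := by
  rw [← ch2_symm hp]
  exact (ch2 x).right_inv hp

lemma Pz_mem {x : XX} {p : ℂ × ℂ} (hp : p ∈ (ch2 x).target) : Pz p ∈ (ch2 x).source := by
  rw [← ch2_symm hp]
  exact (ch2 x).map_target hp

lemma Pz_rep (x : XX) : Pz (rep x) = x := by
  rw [← ch2_symm (rep_mem_target x), ← ch2_self]
  exact (ch2 x).left_inv (mem_ch2_source x)

lemma Mo_mem (g : GG × GG) (p : ℂ × ℂ) : Mo g p ∈ DD := ⟨mo_im_pos g.1 p.1, mo_im_pos g.2 p.2⟩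

lemma Pz_Mo (g : GG × GG) {p : ℂ × ℂ} (hp : p ∈ DD) : Pz (Mo g p) = Pz p :=
  Prod.ext (pz_mo g.1 hp.1) (pz_mo g.2 hp.2)

lemma Mo_mul (g h : GG × GG) (p : ℂ × ℂ) : Mo (g * h) p = Mo g (Mo h p) :=
  Prod.ext (mo_mul _ _ _) (mo_mul _ _ _)

lemma Mo_one {p : ℂ × ℂ} (hp : p ∈ DD) : Mo 1 p = p := Prod.ext (mo_one hp.1) (mo_one hp.2)

lemma Mo_inv_Mo (g : GG × GG) {p : ℂ × ℂ} (hp : p ∈ DD) : Mo g⁻¹ (Mo g p) = p := by
  rw [← Mo_mul, inv_mul_cancel, Mo_one hp]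

lemma Pz_eq_iff {p q : ℂ × ℂ} (hp : p ∈ DD) (hq : q ∈ DD) : Pz p = Pz q ↔ ∃ g : GG × GG, Mo g q = p := by
  constructor
  · intro h
    obtain ⟨g1, h1⟩ := (pz_eq_iff hp.1 hq.1).mp (congrArg Prod.fst h)
    obtain ⟨g2, h2⟩ := (pz_eq_iff hp.2 hq.2).mp (congrArg Prod.snd h)
    exact ⟨(g1, g2), Prod.ext h1 h2⟩
  · rintro ⟨g, rfl⟩
    exact Pz_Mo g hq

lemma contDiffAt_Mo (g : GG × GG) {p : ℂ × ℂ} (hp : p ∈ DD) : ContDiffAt ℂ ω (Mo g) p := by
  unfold Mo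
  exact ((contDiffAt_mo g.1 hp.1).comp p contDiffAt_fst).prodMk
    ((contDiffAt_mo g.2 hp.2).comp p contDiffAt_snd)

/-- The differential of the action. -/
noncomputable def dMo (g : GG × GG) (p v : ℂ × ℂ) : ℂ × ℂ :=
  (v.1 / dn g.1 p.1 ^ 2, v.2 / dn g.2 p.2 ^ 2)

lemma fderiv_Mo (g : GG × GG) {p : ℂ × ℂ} (hp : p ∈ DD) (v : ℂ × ℂ) :
    fderiv ℂ (Mo g) p v = dMo g p v := by
  have h1 : HasFDerivAt (fun p : ℂ × ℂ => mo g.1 p.1) _ p :=
    HasFDerivAt.comp (g := mo g.1) (f := fun p : ℂ × ℂ => p.1) p (hasDerivAt_mo g.1 hp.1).hasFDerivAt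
      hasFDerivAt_fst
  have h2 : HasFDerivAt (fun p : ℂ × ℂ => mo g.2 p.2) _ p :=
    HasFDerivAt.comp (g := mo g.2) (f := fun p : ℂ × ℂ => p.2) p (hasDerivAt_mo g.2 hp.2).hasFDerivAt
      hasFDerivAt_snd
  have h3 := (h1.prodMk h2).fderiv
  unfold Mo
  rw [h3]
  unfold dMo
  ext1
  · simp [div_eq_mul_inv]
  · simp [div_eq_mul_inv]

lemma transition2 {x : XX} {p : ℂ × ℂ} {g : GG × GG} (hp : p ∈ DD)
    (h : Mo g p ∈ (ch2 x).target) :
    ∀ᶠ q in 𝓝 p, q ∈ DD ∧ Mo g q ∈ (ch2 x).target ∧ Pz q ∈ (ch2 x).source ∧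
      ch2 x (Pz q) = Mo g q := by
  have h1 := transition hp.1 h.1
  have h2 := transition hp.2 h.2
  filter_upwards [continuousAt_fst.eventually h1, continuousAt_snd.eventually h2] with q h1 h2
  exact ⟨⟨h1.1, h2.1⟩, ⟨h1.2.1, h2.2.1⟩, ⟨h1.2.2.1, h2.2.2.1⟩, Prod.ext h1.2.2.2 h2.2.2.2⟩

lemma exists_Mo {x : XX} {p : ℂ × ℂ} (hp : p ∈ DD) (h : Pz p ∈ (ch2 x).source) :
    ∃ g : GG × GG, Mo g p = ch2 x (Pz p) ∧ Mo g p ∈ (ch2 x).target := by
  obtain ⟨g1, h1, h1'⟩ := exists_mo hp.1 h.1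
  obtain ⟨g2, h2, h2'⟩ := exists_mo hp.2 h.2
  exact ⟨(g1, g2), Prod.ext h1 h2, h1', h2'⟩

instance : IsManifold 𝓘(ℂ, ℂ × ℂ) ω XX := by
  apply isManifold_of_contDiffOn
  rintro e e' ⟨x, rfl⟩ ⟨y, rfl⟩
  simp only [modelWithCornersSelf_coe, modelWithCornersSelf_coe_symm, Function.id_comp,
    Function.comp_id, preimage_id, range_id, inter_univ]
  rintro p hp
  rw [OpenPartialHomeomorph.trans_source, OpenPartialHomeomorph.symm_source] at hp
  have hp1 : p ∈ (ch2 x).target := hp.1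
  have hp2 : Pz p ∈ (ch2 y).source := by
    rw [← ch2_symm hp1]
    exact hp.2
  obtain ⟨g, -, hg⟩ := exists_Mo (ch2_target hp1) hp2
  refine (ContDiffAt.congr_of_eventuallyEq (contDiffAt_Mo g (ch2_target hp1)) ?_).contDiffWithinAt
  filter_upwards [transition2 (ch2_target hp1) hg, (ch2 x).open_target.mem_nhds hp1] with q hq hq1
  show ch2 y ((ch2 x).symm q) = _
  rw [ch2_symm hq1]
  exact hq.2.2.2

end Pool.Agent.V7H49.Nef
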