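import Pool.Agent.V7H49.Nef.Part
import Pool.Agent.V7H49.Nef.Ibp

/-! Unfolding. -/

set_option autoImplicit false

open Complex MeasureTheory Topology Set Filter UpperHalfPlane
open scoped Manifold ContDiff ComplexConjugate MatrixGroups NNReal

namespace Pool.Agent.V7H49.Nef

open Pool.Agent.H85R3.HS

/-- Unfolding over the group. -/
lemma unfold_zero {G : ℍ → ℝ} (hG : Integrable G)
    (hfin : ∀ z, (Function.support fun g : GG => G (g • z)).Finite)
    (h : ∀ z, ∑ᶠ g : GG, G (g • z) = 0) : ∫ z, G z = 0 := by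
  obtain ⟨D, -, hD⟩ := movesFar.exists_domain (by norm_num)
  have : Countable GG := movesFar.countable (by norm_num)
  rw [hD.integral_eq_tsum'' G hG, ← integral_tsum]
  · have h1 : ∀ z : ℍ, ∑' g : GG, G (g • z) = 0 := by
      intro z
      rw [tsum_eq_finsum (hfin z), h z]
    simp [h1]
  · intro g
    have h2 : AEStronglyMeasurable (fun z : ℍ => G (g • z)) volume :=
      hG.1.comp_measurePreserving (measurePreserving_smul g (volume : Measure ℍ))
    exact h2.restrict
  · have h3 := hD.lintegral_eq_tsum'' (fun z => ‖G z‖ₑ)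
    rw [← h3]
    exact hG.2.ne

/-- Integrals over the upper half plane. -/
lemma integral_H {G : ℂ → ℝ} (hs : tsupport G ⊆ {z : ℂ | 0 < z.im}) :
    ∫ z : ℍ, G z = ∫ z : ℂ, G z / z.im ^ 2 := by
  have hmp : MeasurePreserving UpperHalfPlane.coe (volume.comap UpperHalfPlane.coe)
      (volume.restrict (.range UpperHalfPlane.coe)) :=
    ⟨measurable_coe, by rw [measurableEmbedding_coe.map_comap]⟩
  have hm : Measurable fun z : ℍ => ((1 / NNReal.mk z.im z.im_pos.le : ℝ≥0) ^ 2) := by
    refine (Continuous.pow (.div₀ continuous_const ?_ ?_) _).measurable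
    · exact continuous_im.subtype_mk _
    · exact fun x ↦ NNReal.ne_iff.mp x.im_ne_zero
  rw [volume_def, integral_withDensity_eq_integral_smul hm]
  have e1 : (fun z : ℍ => ((1 / NNReal.mk z.im z.im_pos.le : ℝ≥0) ^ 2) • G z) =
      fun z : ℍ => (fun w : ℂ => G w / w.im ^ 2) (z : ℂ) := by
    funext z
    rw [NNReal.smul_def]
    simp only [NNReal.coe_pow, NNReal.coe_div, NNReal.coe_one, smul_eq_mul, coe_im]
    rw [NNReal.coe_mk]
    ring
  have e2 := hmp.integral_comp measurableEmbedding_coe (fun w : ℂ => G w / w.im ^ 2)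
  rw [e1, e2, setIntegral_eq_integral_of_forall_compl_eq_zero]
  intro z hz
  have h0 : G z = 0 := by
    refine image_eq_zero_of_notMem_tsupport fun hcon => hz ?_
    rw [UpperHalfPlane.range_coe]
    exact hs hcon
  rw [h0, zero_div]

lemma int_H {G : ℂ → ℝ} (hG : Continuous G) (hc : HasCompactSupport G)
    (hs : tsupport G ⊆ {z : ℂ | 0 < z.im}) : Integrable (fun z : ℍ => G z) := by
  refine Continuous.integrable_of_hasCompactSupport (hG.comp UpperHalfPlane.continuous_coe) ?_
  refine HasCompactSupport.of_support_subset_isCompact (compact_coe hc hs) ?_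
  intro z hz
  exact subset_tsupport G hz

/-- A compactly supported function whose sums over the orbits vanish has integral zero. -/
lemma unfold_C {G : ℂ → ℝ} (hG : Continuous G) (hc : HasCompactSupport G)
    (hs : tsupport G ⊆ {z : ℂ | 0 < z.im})
    (h : ∀ z : ℂ, 0 < z.im → ∑ᶠ g : GG, G (mo g z) = 0) : ∫ z : ℂ, G z / z.im ^ 2 = 0 := by
  rw [← integral_H hs]
  refine unfold_zero (int_H hG hc hs) (fun z => ?_) fun z => ?_
  · obtain ⟨S, hS⟩ := loc_fin hc hs z.im_pos
    refine S.finite_toSet.subset fun g hg => ?_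
    by_contra hcon
    apply hg
    show G ((g • z : ℍ) : ℂ) = 0
    rw [← mo_coe]
    exact image_eq_zero_of_notMem_tsupport (hS.self_of_nhds.2 g hcon)
  · rw [← h z z.im_pos]
    apply finsum_congr
    intro g
    rw [mo_coe]

end Pool.Agent.V7H49.Nef
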