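import Pool.Agent.V7H49.Nef.Lift

/-! The cut-off Green function of the diagonal and the form. -/

set_option autoImplicit false

open Complex MeasureTheory Topology Set Filter UpperHalfPlane
open scoped Manifold ContDiff ComplexConjugate MatrixGroups

namespace Pool.Agent.V7H49.Nef

open Pool.Agent.H85R3.HS

lemma sf_dist (z w : ℍ) : Real.cosh (dist z w) = 1 + 2 * sf (z, w) := by
  rw [UpperHalfPlane.cosh_dist, Complex.dist_eq, ← normSq_eq_norm_sq]
  unfold sf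
  simp only [coe_im]
  have h1 := z.im_pos
  have h2 := w.im_pos
  field_simp
  ring

lemma sf_eq_dist {p : ℂ × ℂ} (hp : p ∈ DD) :
    Real.cosh (dist (ofComplex p.1) (ofComplex p.2)) = 1 + 2 * sf p := by
  rw [sf_dist, ofComplex_apply_of_im_pos hp.1, ofComplex_apply_of_im_pos hp.2]

lemma sf_gt_of_dist {p : ℂ × ℂ} (hp : p ∈ DD) (h : 3 ≤ dist (ofComplex p.1) (ofComplex p.2)) :
    2 < sf p := by
  have h1 := sf_eq_dist hp
  have h2 : Real.cosh 3 ≤ Real.cosh (dist (ofComplex p.1) (ofComplex p.2)) := by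
    rw [Real.cosh_le_cosh, abs_of_pos (by norm_num : (0 : ℝ) < 3), abs_of_nonneg dist_nonneg]
    exact h
  have h3 : 5 < Real.cosh 3 := by
    have h4 := Real.cosh_sq 3
    have h5 : (3 : ℝ) < Real.sinh 3 := Real.self_lt_sinh_iff.mpr (by norm_num)
    have h6 : Real.cosh 3 = 2 * Real.cosh (3 / 2) ^ 2 - 1 := by
      rw [show (3 : ℝ) = 2 * (3 / 2) by norm_num, Real.cosh_two_mul]
      have := Real.cosh_sq (3 / 2)
      norm_num
      nlinarith
    have h7 : Real.cosh (3 / 2) ^ 2 = Real.sinh (3 / 2) ^ 2 + 1 := Real.cosh_sq _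
    have h8 : Real.sinh (3 / 2) = 2 * Real.sinh (3 / 4) * Real.cosh (3 / 4) := by
      rw [show (3 / 2 : ℝ) = 2 * (3 / 4) by norm_num, Real.sinh_two_mul]
    have h9 : (3 / 4 : ℝ) < Real.sinh (3 / 4) := Real.self_lt_sinh_iff.mpr (by norm_num)
    have h10 : Real.cosh (3 / 4) ^ 2 = Real.sinh (3 / 4) ^ 2 + 1 := Real.cosh_sq _
    have h11 : 25 / 16 < Real.cosh (3 / 4) ^ 2 := by nlinarith
    have h12 : Real.sinh (3 / 2) ^ 2 = 4 * Real.sinh (3 / 4) ^ 2 * Real.cosh (3 / 4) ^ 2 := by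
      rw [h8]
      ring
    have h13 : (9 / 16 : ℝ) < Real.sinh (3 / 4) ^ 2 := by nlinarith
    nlinarith
  linarith

lemma cont_ofComplex {z : ℂ} (hz : 0 < z.im) : ContinuousAt ofComplex z :=
  (contMDiffAt_ofComplex (n := 1) hz).continuousAt

/-- Locally only one element of the group matters. -/
lemma local_one {p : ℂ × ℂ} (hp : p ∈ DD) : ∃ γ : GG, ∀ᶠ q in 𝓝 p, q ∈ DD ∧
    ∀ g : GG, g ≠ γ → 2 < sf (Mo (1, g) q) := by
  set z := ofComplex p.1 with hz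
  set w := ofComplex p.2 with hw
  have h1 : ∃ γ : GG, ∀ g : GG, g ≠ γ → 8 ≤ dist z (g • w) := by
    by_cases h : ∃ γ : GG, dist z (γ • w) < 8
    · obtain ⟨γ, hγ⟩ := h
      refine ⟨γ, fun g hg => ?_⟩
      by_contra hcon
      push Not at hcon
      apply hg
      apply Subtype.ext
      refine movesFar.eq_of_dist_lt g.2 γ.2 (z := w) ?_
      have h2 := dist_triangle_left (g.1 • w) (γ.1 • w) z
      have h3 : dist z (g.1 • w) < 8 := hcon
      have h4 : dist z (γ.1 • w) < 8 := hγ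
      linarith
    · push Not at h
      exact ⟨1, fun g _ => h g⟩
  obtain ⟨γ, hγ⟩ := h1
  refine ⟨γ, ?_⟩
  have c1 : ∀ᶠ q : ℂ × ℂ in 𝓝 p, dist (ofComplex q.1) z < 1 := by
    have : ContinuousAt (fun q : ℂ × ℂ => ofComplex q.1) p :=
      ContinuousAt.comp (cont_ofComplex hp.1) continuousAt_fst
    exact this.eventually (Metric.ball_mem_nhds z one_pos)
  have c2 : ∀ᶠ q : ℂ × ℂ in 𝓝 p, dist (ofComplex q.2) w < 1 := by
    have : ContinuousAt (fun q : ℂ × ℂ => ofComplex q.2) p :=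
      ContinuousAt.comp (cont_ofComplex hp.2) continuousAt_snd
    exact this.eventually (Metric.ball_mem_nhds w one_pos)
  filter_upwards [c1, c2, isOpen_DD.mem_nhds hp] with q hq1 hq2 hq
  refine ⟨hq, fun g hg => sf_gt_of_dist (Mo_mem _ _) ?_⟩
  have e1 : ofComplex (Mo (1, g) q).1 = ofComplex q.1 := by
    show ofComplex (mo 1 q.1) = _
    rw [mo_one hq.1]
  have e2 : ofComplex (Mo (1, g) q).2 = g • ofComplex q.2 := by
    show ofComplex (mo g q.2) = _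
    unfold mo
    rw [ofComplex_apply]
  rw [e1, e2]
  have h2 := hγ g hg
  have h3 : dist (g • ofComplex q.2) (g • w) = dist (ofComplex q.2) w :=
    dist_smul g.1 (ofComplex q.2) w
  have h4 := dist_triangle4 z (ofComplex q.1) (g • ofComplex q.2) (g • w)
  have h5 := dist_comm z (ofComplex q.1)
  linarith

lemma sf_Mo_diag (g : GG) {p : ℂ × ℂ} (hp : p ∈ DD) : sf (Mo (g, g) p) = sf p := by
  have h1 := sf_eq_dist (Mo_mem (g, g) p)
  have h2 := sf_eq_dist hp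
  have e1 : ofComplex (Mo (g, g) p).1 = g • ofComplex p.1 := by
    show ofComplex (mo g p.1) = _
    unfold mo
    rw [ofComplex_apply]
  have e2 : ofComplex (Mo (g, g) p).2 = g • ofComplex p.2 := by
    show ofComplex (mo g p.2) = _
    unfold mo
    rw [ofComplex_apply]
  rw [e1, e2, show dist (g • ofComplex p.1) (g • ofComplex p.2) =
    dist (ofComplex p.1) (ofComplex p.2) from dist_smul g.1 _ _] at h1
  linarith

lemma nN_Mo (g : GG × GG) {p : ℂ × ℂ} (hp : p ∈ DD) (v : ℂ × ℂ) :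
    normSq (dMo g p v).1 / (Mo g p).1.im ^ 2 = normSq v.1 / p.1.im ^ 2 ∧
    normSq (dMo g p v).2 / (Mo g p).2.im ^ 2 = normSq v.2 / p.2.im ^ 2 := by
  have h1 : normSq (dn g.1 p.1) ≠ 0 := by
    rw [Ne, normSq_eq_zero]
    exact dn_ne g.1 hp.1
  have h2 : normSq (dn g.2 p.2) ≠ 0 := by
    rw [Ne, normSq_eq_zero]
    exact dn_ne g.2 hp.2
  have h3 := hp.1.ne'
  have h4 := hp.2.ne'
  unfold dMo Mo
  simp only [mo_im g.1 hp.1, mo_im g.2 hp.2, normSq_div, map_pow]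
  constructor
  · field_simp
  · field_simp

lemma nN_inv : Inv nN := by
  intro g p hp v
  unfold nN
  rw [(nN_Mo g hp v).1, (nN_Mo g hp v).2]

lemma dMo_mul (g h : GG × GG) {p : ℂ × ℂ} (hp : p ∈ DD) (v : ℂ × ℂ) :
    dMo (g * h) p v = dMo g (Mo h p) (dMo h p v) := by
  rw [← fderiv_Mo _ hp, ← fderiv_Mo _ (Mo_mem h p), ← fderiv_Mo _ hp]
  have h1 : Mo (g * h) = Mo g ∘ Mo h := by
    funext q
    exact Mo_mul g h q
  rw [h1, fderiv_comp]
  · rfl
  · exact (contDiffAt_Mo g (Mo_mem h p)).differentiableAt (by simp)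
  · exact (contDiffAt_Mo h hp).differentiableAt (by simp)

lemma qQ_eq {p : ℂ × ℂ} (hp : p ∈ DD) (v : ℂ × ℂ) : qQ p v = 4 * levi sf p v - sf p * nN p v := by
  rw [levi_sf hp]
  ring

lemma qQ_Mo_diag (g : GG) {p : ℂ × ℂ} (hp : p ∈ DD) (v : ℂ × ℂ) :
    qQ (Mo (g, g) p) (dMo (g, g) p v) = qQ p v := by
  rw [qQ_eq (Mo_mem _ _), qQ_eq hp, sf_Mo_diag g hp, nN_inv _ _ hp,
    ← levi_Mo (g, g) hp (contDiffAt_sf (Mo_mem _ _))]
  congr 2
  apply levi_congr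
  filter_upwards [isOpen_DD.mem_nhds hp] with q hq
  exact sf_Mo_diag g hq

/-- The local correction term. -/
noncomputable def Lam (p v : ℂ × ℂ) : ℝ := (AA (sf p) * nN p v + deriv AA (sf p) * qQ p v) / 4

lemma Lam_Mo_diag (g : GG) {p : ℂ × ℂ} (hp : p ∈ DD) (v : ℂ × ℂ) :
    Lam (Mo (g, g) p) (dMo (g, g) p v) = Lam p v := by
  unfold Lam
  rw [sf_Mo_diag g hp, nN_inv _ _ hp, qQ_Mo_diag g hp]

lemma Lam_zero {p : ℂ × ℂ} (h : 2 < sf p) (v : ℂ × ℂ) : Lam p v = 0 := by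
  unfold Lam
  rw [AA_zero h.le, deriv_AA_zero' h]
  ring

/-- The basic form. -/
noncomputable def bb (p v : ℂ × ℂ) : ℝ :=
  (1 / 2 * (normSq v.1 / p.1.im ^ 2) + 3 / 2 * (normSq v.2 / p.2.im ^ 2)) / 4

lemma bb_inv : Inv bb := by
  intro g p hp v
  unfold bb
  rw [(nN_Mo g hp v).1, (nN_Mo g hp v).2]

/-- The regularised Green function. -/
noncomputable def VV (ε : ℝ) (p : ℂ × ℂ) : ℝ := ∑ᶠ g : GG, FF ε (sf (Mo (1, g) p))

/-- The form whose class is nef and big. -/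
noncomputable def alT (p v : ℂ × ℂ) : ℝ :=
  bb p v - ∑ᶠ g : GG, Lam (Mo (1, g) p) (dMo (1, g) p v)

lemma FF_zero (ε : ℝ) {s : ℝ} (hs : 2 ≤ s) : FF ε s = 0 := by
  unfold FF
  rw [intervalIntegral.integral_symm, neg_neg]
  rw [intervalIntegral.integral_congr (g := fun _ => 0)]
  · simp
  · intro t ht
    rw [uIcc_of_le hs] at ht
    simp [AA_zero ht.1]

/-- The reindexing. -/
noncomputable def reidx (g : GG × GG) : GG ≃ GG := (Equiv.mulLeft g.1⁻¹).trans (Equiv.mulRight g.2)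

lemma reidx_mul (g : GG × GG) (γ : GG) :
    ((1, γ) : GG × GG) * g = (g.1, g.1) * (1, reidx g γ) := by
  unfold reidx
  ext1
  · simp
  · simp [mul_assoc]

lemma VV_Mo (ε : ℝ) (g : GG × GG) {p : ℂ × ℂ} (hp : p ∈ DD) : VV ε (Mo g p) = VV ε p := by
  unfold VV
  refine Eq.trans ?_ (finsum_comp_equiv (f := fun γ : GG => FF ε (sf (Mo (1, γ) p))) (reidx g))
  apply finsum_congr
  intro γ
  rw [← Mo_mul, reidx_mul, Mo_mul, sf_Mo_diag _ (Mo_mem _ _)]

lemma alT_inv : Inv alT := by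
  intro g p hp v
  unfold alT
  rw [bb_inv g p hp v]
  congr 1
  refine Eq.trans ?_ (finsum_comp_equiv
    (f := fun γ : GG => Lam (Mo (1, γ) p) (dMo (1, γ) p v)) (reidx g))
  apply finsum_congr
  intro γ
  rw [← dMo_mul _ _ hp, ← Mo_mul, reidx_mul, Mo_mul, dMo_mul _ _ hp, Lam_Mo_diag _ (Mo_mem _ _)]

lemma VV_local (ε : ℝ) {p : ℂ × ℂ} {γ : GG} (h : ∀ g : GG, g ≠ γ → 2 < sf (Mo (1, g) p)) :
    VV ε p = FF ε (sf (Mo (1, γ) p)) := by
  unfold VV
  rw [finsum_eq_single _ γ]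
  intro g hg
  exact FF_zero ε (h g hg).le

lemma alT_local {p : ℂ × ℂ} {γ : GG} (h : ∀ g : GG, g ≠ γ → 2 < sf (Mo (1, g) p)) (v : ℂ × ℂ) :
    alT p v = bb p v - Lam (Mo (1, γ) p) (dMo (1, γ) p v) := by
  unfold alT
  rw [finsum_eq_single _ γ]
  intro g hg
  exact Lam_zero (h g hg) _

/-- The regularised Green function is smooth. -/
lemma contDiffAt_VV {ε : ℝ} (hε : 0 < ε) {p : ℂ × ℂ} (hp : p ∈ DD) : ContDiffAt ℝ ∞ (VV ε) p := by
  obtain ⟨γ, hγ⟩ := local_one hp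
  have h1 : VV ε =ᶠ[𝓝 p] fun q => FF ε (sf (Mo (1, γ) q)) := by
    filter_upwards [hγ] with q hq
    exact VV_local ε hq.2
  refine ContDiffAt.congr_of_eventuallyEq ?_ h1
  have h2 : ContDiffAt ℝ ∞ (Mo (1, γ)) p :=
    ((contDiffAt_Mo (1, γ) hp).restrict_scalars ℝ).of_le (by exact_mod_cast le_top)
  have h3 : ContDiffAt ℝ ∞ (fun q => sf (Mo (1, γ) q)) p := (contDiffAt_sf (Mo_mem _ _)).comp p h2
  have h4 : -ε < sf (Mo (1, γ) p) := by
    have := sf_nonneg (Mo_mem (1, γ) p)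
    linarith
  exact ContDiffAt.comp (g := FF ε) p (contDiffAt_FF hε.le h4) h3

/-- The two lower bounds. -/
lemma lower {ε : ℝ} (hε : 0 < ε) {p : ℂ × ℂ} {γ : GG}
    (hγ : ∀ᶠ q in 𝓝 p, q ∈ DD ∧ ∀ g : GG, g ≠ γ → 2 < sf (Mo (1, g) q)) (v : ℂ × ℂ) :
    - ε * (nN p v / 4) ≤ alT p v + levi (VV ε) p v ∧
    (1 / 2 - ε / (sf (Mo (1, γ) p) + ε)) * (nN p v / 4) ≤ alT p v + levi (VV ε) p v := by
  have hp : p ∈ DD := hγ.self_of_nhds.1
  have h1 : VV ε =ᶠ[𝓝 p] fun q => FF ε (sf (Mo (1, γ) q)) := by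
    filter_upwards [hγ] with q hq
    exact VV_local ε hq.2
  set p' := Mo (1, γ) p with hp'
  set v' := dMo (1, γ) p v with hv'
  have hpD : p' ∈ DD := Mo_mem _ _
  have hs := sf_nonneg hpD
  have h4 : -ε < sf p' := by linarith
  have h2 : ContDiffAt ℝ 2 (fun q => FF ε (sf q)) p' :=
    (ContDiffAt.comp (g := FF ε) p' (contDiffAt_FF hε.le h4) (contDiffAt_sf hpD)).of_le two_le_infty
  rw [levi_congr h1, levi_Mo (1, γ) hp h2, ← hp', ← hv', alT_local hγ.self_of_nhds.2,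
    ← bb_inv (1, γ) p hp v, ← nN_inv (1, γ) p hp v, ← hp', ← hv',
    levi_FF hε.le hpD (by linarith)]
  have hN : nN p' v' = (‖v'.1‖ / p'.1.im) ^ 2 + (‖v'.2‖ / p'.2.im) ^ 2 := by
    unfold nN
    rw [normSq_eq_norm_sq, normSq_eq_norm_sq, div_pow, div_pow]
  have hk := key_ineq (a := ‖v'.1‖ / p'.1.im) (b := ‖v'.2‖ / p'.2.im) (by have := hpD.1; positivity)
    (by have := hpD.2; positivity) hN (qQ_ge hpD v') hs hε (AA_nonneg (sf p')) (AA_le_one _)
    (deriv_AA_nonpos (sf p'))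
  have hb : bb p' v' = (1 / 2 * (‖v'.1‖ / p'.1.im) ^ 2 + 3 / 2 * (‖v'.2‖ / p'.2.im) ^ 2) / 4 := by
    unfold bb
    rw [normSq_eq_norm_sq, normSq_eq_norm_sq, div_pow, div_pow]
  rw [hb]
  unfold Lam
  constructor
  · linarith [hk.1]
  · linarith [hk.2]

end Pool.Agent.V7H49.Nef
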